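import Pool.Agent.Lib.MP_c77da8_nt.CH.Defs

/-!
# CH-As0: parameters of the assembly, and `fw ≤ nu`

`fw_le`: let `p0 = La q M w n z` be prime; `p0 = W m(z) n - 1 ≥ n - 1 > R`, so no prime in `(w, R]` divides `p0`:
`xi w R p0 = ∅`, `Lam ∅ = 1` (`Orth.lean`: `Lam_empty`, or directly from the definition, the quotient of two equal sums; `VV ≥ 1`
since the term `a = ∅` is `1` and all terms are `≥ 0`), so `nu = VV`.
-/

set_option autoImplicit false

namespace Pool.CH

open Finset Pool.CG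

variable [Sg]

/-- the number of factors: two copies of all pairs `(j, T)` -/
def tk (k : ℕ) : ℕ := 2 * ((k + 2) * 2 ^ (k + 2))

/-- the density -/
noncomputable def del (r t : ℕ) : ℝ := 1 / (256 * (t : ℝ) * 2 ^ (r + 2))

/-- the points on the progressions with `(∑ x_i) 0 = 0` -/
noncomputable def ap0 {r : ℕ} (k : ℕ) (q : Fin (r + 1) → ℕ) (M w R n : ℕ) [NeZero M] : ℝ :=
  av (fun x : Fin (k + 2) → (Fin (r + 2) → ZMod M) =>
    if (∑ i, x i) 0 = 0 then ∏ j, nu q M w R n (psi j x) else 0)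

private theorem as0_xw (w R : ℕ) (p : {p // p ∈ Pr w R}) : 0 ≤ xw (vp w R) p := by
  unfold xw vp
  have hp : (p.1).Prime := (Finset.mem_filter.mp p.2).2.1
  have : (1 : ℝ) ≤ p.1 := by exact_mod_cast hp.one_le
  exact div_nonneg zero_le_one (by linarith)

private theorem as0_VV (w R : ℕ) : 0 ≤ VV (vp w R) R := by
  unfold VV
  exact Finset.sum_nonneg fun a _ => Finset.prod_nonneg fun p _ => as0_xw w R p

private theorem as0_VV_pos (w R : ℕ) (hR : 1 ≤ R) : 0 < VV (vp w R) R := by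
  unfold VV
  have h1 : (∅ : Finset {p // p ∈ Pr w R}) ∈ univ.filter (fun a : Finset {p // p ∈ Pr w R} => nm (vp w R) a ≤ R) := by
    rw [mem_filter]; exact ⟨mem_univ _, by simpa [nm] using hR⟩
  have h2 := Finset.single_le_sum (f := fun a : Finset {p // p ∈ Pr w R} => ∏ p ∈ a, xw (vp w R) p)
    (fun a _ => Finset.prod_nonneg fun p _ => as0_xw w R p) h1
  rw [Finset.prod_empty] at h2
  linarith

theorem fw_nonneg {r : ℕ} (q : Fin (r + 1) → ℕ) (M w R n : ℕ) (z : Fin (r + 2) → ZMod M) (hR : 1 ≤ R) :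
    0 ≤ fw q M w R n z := by
  unfold fw
  split_ifs
  · exact as0_VV w R
  · exact le_refl _

theorem nu_nonneg {r : ℕ} (q : Fin (r + 1) → ℕ) (M w R n : ℕ) (z : Fin (r + 2) → ZMod M) (hR : 1 ≤ R) :
    0 ≤ nu q M w R n z := by
  unfold nu nuw
  exact mul_nonneg (as0_VV w R) (sq_nonneg _)

theorem fw_le {r : ℕ} (q : Fin (r + 1) → ℕ) (hq : ∀ l, (q l).Prime) (M w R n : ℕ) (hR : 1 ≤ R)
    (hn : R + 2 ≤ n) (z : Fin (r + 2) → ZMod M) : fw q M w R n z ≤ nu q M w R n z := by
  classical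
  unfold fw
  split_ifs with h
  swap
  · exact nu_nonneg q M w R n z hR
  have hW : 0 < Wp w := by
    unfold Wp
    exact Finset.prod_pos fun p hp => (Finset.mem_filter.mp hp).2.pos
  have hm : 0 < mz q M z := by
    unfold mz
    exact Finset.prod_pos fun l _ => pow_pos (hq l).pos _
  have hbig : R < La q M w n z := by
    unfold La
    have h1 : n ≤ Wp w * mz q M z * n := Nat.le_mul_of_pos_left n (Nat.mul_pos hW hm)
    omega
  have hxi : xi w R (La q M w n z) = ∅ := by
    unfold xi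
    rw [Finset.filter_eq_empty_iff]
    intro p _ hp
    have hpp : (p.1).Prime := (Finset.mem_filter.mp p.2).2.1
    have hpR : p.1 ≤ R := (Finset.mem_Icc.mp (Finset.mem_filter.mp p.2).1).2
    have := (Nat.prime_dvd_prime_iff_eq hpp h.1).mp hp
    omega
  have hV := as0_VV_pos w R hR
  have hLam : Lam (vp w R) R ∅ = 1 := by
    unfold Lam
    have : (∑ a ∈ univ.filter (fun a : Finset {p // p ∈ Pr w R} => nm (vp w R) a ≤ R),
        ∏ p ∈ a, if p ∈ (∅ : Finset {p // p ∈ Pr w R}) then (-1 : ℝ) else xw (vp w R) p) = VV (vp w R) R := by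
      unfold VV
      exact Finset.sum_congr rfl fun a _ => Finset.prod_congr rfl fun p _ => by simp
    rw [this, div_self hV.ne']
  unfold nu nuw
  rw [hxi, hLam]
  simp

end Pool.CH
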