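import Pool.Agent.Lib.MP_c77da8_nt.CG.SDefs

/-!
# CH-Defs: the multipliers with a dominating power of the first prime

`m(z) = q_0 ^ (M^s z_0 + z_1) * ∏_(l ≥ 1) q_l ^ (M z_0 + z_(l+1))`, `s ≥ 1`. The parameter `s` is carried by a class.
-/

set_option autoImplicit false

namespace Pool.CH

open Finset Pool.CG

/-- the exponent `s ≥ 1` -/
class Sg where
  s : ℕ
  hs : 1 ≤ s

variable [Sg]

/-- the coefficient of `z_0` in the exponent of `q_l` -/
def kk (M : ℕ) {r : ℕ} (l : Fin (r + 1)) : ℕ := if l = 0 then M ^ Sg.s else M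

/-- the multiplier `m(z)` -/
def mz {r : ℕ} (q : Fin (r + 1) → ℕ) (M : ℕ) (z : Fin (r + 2) → ZMod M) : ℕ :=
  ∏ l : Fin (r + 1), q l ^ (kk M l * (z 0).val + (z l.succ).val)

/-- the number `W m(z) n - 1` -/
def La {r : ℕ} (q : Fin (r + 1) → ℕ) (M w n : ℕ) (z : Fin (r + 2) → ZMod M) : ℕ :=
  Wp w * mz q M z * n - 1

/-- the majorant on `(ℤ/M)^(r+2)` for fixed `n` -/
noncomputable def nu {r : ℕ} (q : Fin (r + 1) → ℕ) (M w R n : ℕ) (z : Fin (r + 2) → ZMod M) : ℝ :=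
  nuw w R (La q M w n z)

/-- the weighted primes on `(ℤ/M)^(r+2)` for fixed `n`, in the box `z_i < M/2` -/
noncomputable def fw {r : ℕ} (q : Fin (r + 1) → ℕ) (M w R n : ℕ) (z : Fin (r + 2) → ZMod M) : ℝ :=
  open Classical in
  if (La q M w n z).Prime ∧ ∀ i, 2 * (z i).val < M then VV (vp w R) R else 0

theorem kk_ge (M : ℕ) {r : ℕ} (l : Fin (r + 1)) : M ≤ kk M l := by
  unfold kk
  split_ifs
  · exact Nat.le_self_pow (by have := Sg.hs; omega) M
  · exact le_rfl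

theorem kk_le (M : ℕ) {r : ℕ} (l : Fin (r + 1)) : kk M l ≤ M ^ Sg.s := by
  unfold kk
  split_ifs
  · exact le_rfl
  · exact Nat.le_self_pow (by have := Sg.hs; omega) M

end Pool.CH
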