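import Pool.Agent.Lib.MP_c77da8_nt.CH.As0
import Pool.Agent.Lib.MP_c77da8_nt.CH.LfGen
import Pool.Agent.Lib.MP_c77da8_nt.CG.PairF
import Pool.Agent.Lib.MP_c77da8_nt.CG.VarC

/-!
# CH-As1: the linear forms condition holds for most `n`

For `S : Finset (Fin (k+2) × Finset (Fin (k+2)))` with `p.1 ∉ p.2` on `S` put `X_S(n) = av ∏_{p ∈ S} nu(psi p.1 (mix p.2 z.1 z.2))`.
`lf_gen` with `I = S` (subtype), `t = tk k`, `Ω = (K → G)^2`, `JU.pairOK (ju_forms …)`: `|avg_n X_S - 1| ≤ η'` (exchange of the finite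
averages over `n` and `ω`). `lf_gen` with `I = S ⊕ S`, `Ω × Ω` (`JU.inl`, `JU.inr` for two forms in the same copy, `JU.two`, `JU.two'`
with `ju_self` for forms in different copies; `∏` over `S ⊕ S` is the product of the two, the average over `Ω × Ω` of a product
is the product of the averages): `|avg_n X_S^2 - 1| ≤ η'`. So `avg_n (X_S - 1)^2 ≤ 3 η'`, and
`#{n : |X_S(n) - 1| > η} ≤ (3 η'/η^2) N`. Union over the at most `2^((k+2) 2^(k+2))` sets `S`; `w0`, `N0` from `lf_gen` do not depend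
on `S` (they are uniform in `I`, `Ω`, `z`). `card (S ⊕ S) ≤ tk k`. `k + 2 < M` since `M ≥ (log N)^κ`, `N` large.
-/

set_option autoImplicit false

namespace Pool.CH

open Finset Pool.CG

variable [Sg]

/-- the pairs `(j, T)` with `j ∉ T` are at most half of all the pairs -/
private theorem card_pairs_le (k : ℕ) (S : Finset (Fin (k + 2) × Finset (Fin (k + 2)))) (hS : ∀ p ∈ S, p.1 ∉ p.2) :
    2 * S.card ≤ (k + 2) * 2 ^ (k + 2) := by
  classical
  -- the map `(j, T) ↦ (j, insert j T)` is injective and its image is disjoint from `S`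
  have hinj : Set.InjOn (fun p : Fin (k + 2) × Finset (Fin (k + 2)) => (p.1, insert p.1 p.2)) S := by
    rintro ⟨j, T⟩ h ⟨j', T'⟩ h' e
    simp only [Prod.mk.injEq] at e
    obtain ⟨rfl, e⟩ := e
    have h1 : j ∉ T := hS _ h
    have h2 : j ∉ T' := hS _ h'
    have : T = T' := by
      rw [← Finset.erase_insert h1, ← Finset.erase_insert h2, e]
    rw [this]
  have hc := Finset.card_image_of_injOn hinj
  have hdisj : Disjoint S (S.image fun p : Fin (k + 2) × Finset (Fin (k + 2)) => (p.1, insert p.1 p.2)) := by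
    rw [Finset.disjoint_left]
    intro p hp hp'
    rw [mem_image] at hp'
    obtain ⟨p', _, rfl⟩ := hp'
    exact hS _ hp (Finset.mem_insert_self _ _)
  have hu := Finset.card_union_of_disjoint hdisj
  have hle := Finset.card_le_univ (S ∪ S.image fun p : Fin (k + 2) × Finset (Fin (k + 2)) => (p.1, insert p.1 p.2))
  rw [Fintype.card_prod, Fintype.card_finset, Fintype.card_fin] at hle
  omega

private theorem lf_most_aux (k : ℕ) {r : ℕ} (t : ℕ) (ht : (k + 2) * 2 ^ (k + 2) ≤ t) (κ : ℝ) (hκ : 0 < κ)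
    (hr : (9 : ℝ) ^ t + t + 1 ≤ κ * (r + 1)) (q : Fin (r + 1) → ℕ)
    (hq : ∀ l, (q l).Prime) (hinj : Function.Injective q) (η η' : ℝ) (hη : 0 < η) (hη' : 0 < η') :
    ∃ w0 : ℕ, ∀ w ≥ w0, ∃ N0 : ℕ, ∀ N ≥ N0, ∀ (M : ℕ) [NeZero M], M.Prime → k + 2 < M → Real.log N ^ κ ≤ M →
      open Classical in
      (((Ico N (2 * N)).filter fun n => ¬ LF η (fun (j : Fin (k + 2)) (x : Fin (k + 2) → Fin (r + 2) → ZMod M) =>
        nu q M w (Rt t N) n (psi j x))).card : ℝ) ≤ η' * N := by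
  classical
  have ht1 : 1 ≤ t := le_trans (Nat.one_le_iff_ne_zero.mpr (by positivity)) ht
  -- number of the sets `S`
  set B : ℝ := ((Fintype.card (Finset (Fin (k + 2) × Finset (Fin (k + 2)))) : ℕ) : ℝ) with hB
  have hB1 : (0 : ℝ) < B := by
    rw [hB]
    exact_mod_cast Fintype.card_pos
  set η₁ : ℝ := η ^ 2 * η' / (3 * B) with hη₁
  have hη₁0 : 0 < η₁ := by positivity
  obtain ⟨w0, hw0⟩ := lf_gen t ht1 κ hκ hr q hq hinj η₁ hη₁0
  refine ⟨w0, fun w hw => ?_⟩
  obtain ⟨N0, hN0⟩ := hw0 w hw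
  refine ⟨max N0 1, fun N hN M _ hM hkM hMN => ?_⟩
  have hN1 : 1 ≤ N := le_trans (le_max_right _ _) hN
  have key := hN0 N (le_trans (le_max_left _ _) hN) M hMN
  -- the two averages for a set `S`
  set P : Finset (Fin (k + 2) × Finset (Fin (k + 2))) → ℕ →
      (Fin (k + 2) → Fin (r + 2) → ZMod M) × (Fin (k + 2) → Fin (r + 2) → ZMod M) → ℝ :=
    fun S n z => ∏ p ∈ S, nu q M w (Rt t N) n (psi p.1 (mix p.2 z.1 z.2)) with hP
  have hone : ∀ S : Finset (Fin (k + 2) × Finset (Fin (k + 2))), (∀ p ∈ S, p.1 ∉ p.2) →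
      (((Ico N (2 * N)).filter fun n => η < |av (P S n) - 1|).card : ℝ) ≤ 3 * η₁ / η ^ 2 * N := by
    intro S hS
    have hcS := card_pairs_le k S hS
    refine var_count N hN1 (P S) η η₁ hη ?_ ?_
    · have := key ((Fin (k + 2) → Fin (r + 2) → ZMod M) × (Fin (k + 2) → Fin (r + 2) → ZMod M)) {p // p ∈ S}
        (by rw [Fintype.card_coe]; omega) (fun p z => psi p.1.1 (mix p.1.2 z.1 z.2))
        (fun i j hij => (ju_forms hM hkM i.1 j.1 (hS _ i.2) (hS _ j.2) (fun h => hij (Subtype.ext h))).pairOK)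
      refine (le_of_eq ?_).trans this
      congr 2
      refine av_congr fun z => ?_
      congr 1
      refine Finset.sum_congr rfl fun n _ => ?_
      simp only [hP]
      exact (Finset.prod_coe_sort S fun p => nu q M w (Rt t N) n (psi p.1 (mix p.2 z.1 z.2))).symm
    · have := key (((Fin (k + 2) → Fin (r + 2) → ZMod M) × (Fin (k + 2) → Fin (r + 2) → ZMod M)) ×
          ((Fin (k + 2) → Fin (r + 2) → ZMod M) × (Fin (k + 2) → Fin (r + 2) → ZMod M)))
        ({p // p ∈ S} ⊕ {p // p ∈ S})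
        (by rw [Fintype.card_sum, Fintype.card_coe]; omega)
        (Sum.elim (fun p z => psi p.1.1 (mix p.1.2 z.1.1 z.1.2)) (fun p z => psi p.1.1 (mix p.1.2 z.2.1 z.2.2)))
        (by
          rintro (i | i) (j | j) hij
          · have hne : i.1 ≠ j.1 := fun h => hij (by rw [Subtype.ext h])
            exact (ju_forms hM hkM i.1 j.1 (hS _ i.2) (hS _ j.2) hne).inl.pairOK
          · exact (JU.two (ju_self hM hkM i.1 (hS _ i.2)) (fun z :
              (Fin (k + 2) → Fin (r + 2) → ZMod M) × (Fin (k + 2) → Fin (r + 2) → ZMod M) =>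
              psi j.1.1 (mix j.1.2 z.1 z.2))).pairOK
          · exact (JU.two' (ju_self hM hkM i.1 (hS _ i.2)) (fun z :
              (Fin (k + 2) → Fin (r + 2) → ZMod M) × (Fin (k + 2) → Fin (r + 2) → ZMod M) =>
              psi j.1.1 (mix j.1.2 z.1 z.2))).pairOK
          · have hne : i.1 ≠ j.1 := fun h => hij (by rw [Subtype.ext h])
            exact (ju_forms hM hkM i.1 j.1 (hS _ i.2) (hS _ j.2) hne).inr.pairOK)
      refine (le_of_eq ?_).trans this
      congr 2
      refine av_congr fun z => ?_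
      congr 1
      refine Finset.sum_congr rfl fun n _ => ?_
      simp only [hP, Fintype.prod_sum_type, Sum.elim_inl, Sum.elim_inr]
      rw [Finset.prod_coe_sort S fun p => nu q M w (Rt t N) n (psi p.1 (mix p.2 z.1.1 z.1.2)),
        Finset.prod_coe_sort S fun p => nu q M w (Rt t N) n (psi p.1 (mix p.2 z.2.1 z.2.2))]
  -- union bound
  have hsub : ((Ico N (2 * N)).filter fun n =>
      ¬ LF η (fun (j : Fin (k + 2)) (x : Fin (k + 2) → Fin (r + 2) → ZMod M) =>
        nu q M w (Rt t N) n (psi j x))) ⊆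
      ((univ : Finset (Finset (Fin (k + 2) × Finset (Fin (k + 2))))).filter fun S => ∀ p ∈ S, p.1 ∉ p.2).biUnion
        fun S => (Ico N (2 * N)).filter fun n => η < |av (P S n) - 1| := by
    intro n hn
    rw [mem_filter] at hn
    obtain ⟨hn1, hn2⟩ := hn
    unfold LF at hn2
    push Not at hn2
    obtain ⟨S, hS, hS'⟩ := hn2
    rw [mem_biUnion]
    exact ⟨S, by rw [mem_filter]; exact ⟨mem_univ _, hS⟩, by rw [mem_filter]; exact ⟨hn1, hS'⟩⟩
  calc (((Ico N (2 * N)).filter fun n =>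
        ¬ LF η (fun (j : Fin (k + 2)) (x : Fin (k + 2) → Fin (r + 2) → ZMod M) =>
          nu q M w (Rt t N) n (psi j x))).card : ℝ)
      ≤ ((((univ : Finset (Finset (Fin (k + 2) × Finset (Fin (k + 2))))).filter fun S => ∀ p ∈ S, p.1 ∉ p.2).biUnion
        fun S => (Ico N (2 * N)).filter fun n => η < |av (P S n) - 1|).card : ℝ) := by
        exact_mod_cast Finset.card_le_card hsub
    _ ≤ ∑ S ∈ ((univ : Finset (Finset (Fin (k + 2) × Finset (Fin (k + 2))))).filter fun S => ∀ p ∈ S, p.1 ∉ p.2),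
        (((Ico N (2 * N)).filter fun n => η < |av (P S n) - 1|).card : ℝ) := by
        exact_mod_cast Finset.card_biUnion_le
    _ ≤ ∑ S ∈ ((univ : Finset (Finset (Fin (k + 2) × Finset (Fin (k + 2))))).filter fun S => ∀ p ∈ S, p.1 ∉ p.2),
        3 * η₁ / η ^ 2 * N := by
        refine sum_le_sum fun S hS => ?_
        rw [mem_filter] at hS
        exact hone S hS.2
    _ ≤ B * (3 * η₁ / η ^ 2 * N) := by
        rw [sum_const, nsmul_eq_mul]
        refine mul_le_mul_of_nonneg_right ?_ (by positivity)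
        rw [hB]
        exact_mod_cast Finset.card_le_univ _
    _ = η' * N := by
        rw [hη₁]
        field_simp

open Classical in
theorem lf_most {r : ℕ} (k : ℕ) (κ : ℝ) (hκ : 0 < κ)
    (hr : (9 : ℝ) ^ tk k + tk k + 1 ≤ κ * (r + 1)) (q : Fin (r + 1) → ℕ)
    (hq : ∀ l, (q l).Prime) (hinj : Function.Injective q) (η θ : ℝ) (hη : 0 < η) (hθ : 0 < θ) :
    ∃ w0 : ℕ, ∀ w ≥ w0, ∃ N0 : ℕ, ∀ N ≥ N0, ∀ (M : ℕ) [NeZero M], M.Prime → Real.log N ^ κ ≤ M →
      (((Ico N (2 * N)).filter fun n => ¬ LF η (fun (j : Fin (k + 2))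
        (x : Fin (k + 2) → (Fin (r + 2) → ZMod M)) => nu q M w (Rt (tk k) N) n (psi j x))).card : ℝ) ≤
        θ * N := by
  have ht : (k + 2) * 2 ^ (k + 2) ≤ tk k := by
    unfold tk
    omega
  obtain ⟨w0, h0⟩ := lf_most_aux k (tk k) ht κ hκ hr q hq hinj η θ hη hθ
  refine ⟨w0, fun w hw => ?_⟩
  obtain ⟨N0, hN0⟩ := h0 w hw
  have hlim : Filter.Tendsto (fun N : ℕ => Real.log (N : ℝ) ^ κ) Filter.atTop Filter.atTop :=
    (tendsto_rpow_atTop hκ).comp (Real.tendsto_log_atTop.comp tendsto_natCast_atTop_atTop)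
  obtain ⟨N1, hN1⟩ := Filter.eventually_atTop.mp (hlim.eventually_gt_atTop ((k + 2 : ℕ) : ℝ))
  refine ⟨max N0 N1, fun N hN M _ hM hMN => ?_⟩
  have hk : k + 2 < M := by
    have h1 := hN1 N (le_trans (le_max_right _ _) hN)
    have h2 : ((k + 2 : ℕ) : ℝ) < M := lt_of_lt_of_le h1 hMN
    exact_mod_cast h2
  exact hN0 N (le_trans (le_max_left _ _) hN) M hM hk hMN

end Pool.CH
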