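import Pool.Agent.Lib.MP_c77da8_nt.CH.As0
import Pool.Agent.Lib.MP_c77da8_nt.CH.LfGen
import Pool.Agent.Lib.MP_c77da8_nt.CG.PairA

/-!
# CH-As3: the second moment of `av nu`, and the progressions with `d_0 = 0`

`nu_second`: `lf_gen` with `Ω = G × G`, `I = Bool`, `z true = fst`, `z false = snd` (`JU.two ju_id`, `JU.two'`; `JU.pairOK`), `t ≥ 2`:
`avg_n (av nu)^2 ≤ 1 + 1`.
`ap0_sum`: `ap_av` and `lf_gen` with `Ω = {x // (∑ x_i) 0 = 0}` (nonempty: `x = 0`), `I = Fin (k+2)`, `z j x = psi j x` (`ap_pairOK`):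
`avg_n ap0 = (1/M) avg_n av ∏_j nu(psi j x) ≤ 2/M ≤ θ` for large `N` (`M ≥ (log N)^κ`).
-/

set_option autoImplicit false

namespace Pool.CH

open Finset Pool.CG

variable [Sg]

private theorem as3_ju_id {G : Type} [AddCommGroup G] : JU (fun z : G => z) (fun _ => 0) :=
  fun e => ⟨Equiv.addRight e, fun _ => ⟨rfl, rfl⟩⟩

private theorem as3_large (κ : ℝ) (hκ : 0 < κ) (B : ℝ) : ∃ N0 : ℕ, ∀ N ≥ N0, B ≤ Real.log (N : ℝ) ^ κ := by
  have h : Filter.Tendsto (fun N : ℕ => Real.log (N : ℝ) ^ κ) Filter.atTop Filter.atTop :=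
    (tendsto_rpow_atTop hκ).comp (Real.tendsto_log_atTop.comp tendsto_natCast_atTop_atTop)
  exact Filter.eventually_atTop.mp (h.eventually_ge_atTop B)

theorem nu_second {r : ℕ} (t : ℕ) (ht : 2 ≤ t) (κ : ℝ) (hκ : 0 < κ)
    (hr : (9 : ℝ) ^ t + t + 1 ≤ κ * (r + 1)) (q : Fin (r + 1) → ℕ)
    (hq : ∀ l, (q l).Prime) (hinj : Function.Injective q) :
    ∃ w0 : ℕ, ∀ w ≥ w0, ∃ N0 : ℕ, ∀ N ≥ N0, ∀ (M : ℕ) [NeZero M], Real.log N ^ κ ≤ M →
      ∑ n ∈ Ico N (2 * N), av (fun z => nu q M w (Rt t N) n z) ^ 2 ≤ 2 * N := by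
  obtain ⟨w0, h⟩ := lf_gen t (by omega) κ hκ hr q hq hinj 1 one_pos
  refine ⟨w0, fun w hw => ?_⟩
  obtain ⟨N1, h⟩ := h w hw
  refine ⟨max N1 1, fun N hN M _ hM => ?_⟩
  have hN1 : 1 ≤ N := (le_max_right _ _).trans hN
  have hNr : (0 : ℝ) < N := by exact_mod_cast hN1
  let G := Fin (r + 2) → ZMod M
  have h1 := h N ((le_max_left _ _).trans hN) M hM (G × G) Bool (by simpa using ht)
    (fun b ω => if b then ω.1 else ω.2) (by
      intro i j hij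
      cases i <;> cases j
      · exact absurd rfl hij
      · exact (JU.two' (as3_ju_id (G := G)) (fun z : G => z)).pairOK
      · exact (JU.two (as3_ju_id (G := G)) (fun z : G => z)).pairOK
      · exact absurd rfl hij)
  simp only [Fintype.prod_bool, if_true, Bool.false_eq_true, if_false] at h1
  have e1 : av (fun ω : G × G => (∑ n ∈ Ico N (2 * N), nu q M w (Rt t N) n ω.1 * nu q M w (Rt t N) n ω.2) / (N : ℝ)) =
      (∑ n ∈ Ico N (2 * N), av (fun z => nu q M w (Rt t N) n z) ^ 2) / N := by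
    have : (fun ω : G × G => (∑ n ∈ Ico N (2 * N), nu q M w (Rt t N) n ω.1 * nu q M w (Rt t N) n ω.2) / (N : ℝ)) =
        fun ω => (∑ n ∈ Ico N (2 * N), nu q M w (Rt t N) n ω.1 * nu q M w (Rt t N) n ω.2) * (1 / (N : ℝ)) := by
      funext ω; ring
    rw [this, av_mul_const, av_sum, mul_one_div]
    congr 1
    refine Finset.sum_congr rfl fun n _ => ?_
    rw [av_prod]
    have : ∀ x : G, av (fun y : G => nu q M w (Rt t N) n x * nu q M w (Rt t N) n y) =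
        nu q M w (Rt t N) n x * av (fun y : G => nu q M w (Rt t N) n y) := fun x => av_const_mul _ _
    simp only [this]
    rw [av_mul_const, sq]
  rw [e1] at h1
  have h2 := (abs_le.mp h1).2
  have h3 : (∑ n ∈ Ico N (2 * N), av (fun z => nu q M w (Rt t N) n z) ^ 2) / N ≤ 2 := by linarith
  rwa [div_le_iff₀ hNr] at h3

theorem ap0_sum {r : ℕ} (k t : ℕ) (ht : k + 2 ≤ t) (κ : ℝ) (hκ : 0 < κ)
    (hr : (9 : ℝ) ^ t + t + 1 ≤ κ * (r + 1)) (q : Fin (r + 1) → ℕ)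
    (hq : ∀ l, (q l).Prime) (hinj : Function.Injective q) (θ : ℝ) (hθ : 0 < θ) :
    ∃ w0 : ℕ, ∀ w ≥ w0, ∃ N0 : ℕ, ∀ N ≥ N0, ∀ (M : ℕ) [NeZero M], M.Prime → Real.log N ^ κ ≤ M →
      ∑ n ∈ Ico N (2 * N), ap0 k q M w (Rt t N) n ≤ θ * N := by
  obtain ⟨w0, h⟩ := lf_gen t (by omega) κ hκ hr q hq hinj 1 one_pos
  refine ⟨w0, fun w hw => ?_⟩
  obtain ⟨N1, h⟩ := h w hw
  obtain ⟨N2, h2⟩ := as3_large κ hκ (max ((k : ℝ) + 3) (2 / θ))
  refine ⟨max (max N1 N2) 1, fun N hN M _ hMp hM => ?_⟩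
  have hN1 : 1 ≤ N := (le_max_right _ _).trans hN
  have hNr : (0 : ℝ) < N := by exact_mod_cast hN1
  have hNN : max N1 N2 ≤ N := (le_max_left _ _).trans hN
  have hB := (h2 N ((le_max_right _ _).trans hNN)).trans hM
  have hk3 : ((k : ℝ) + 3) ≤ M := (le_max_left _ _).trans hB
  have hθM : 2 / θ ≤ M := (le_max_right _ _).trans hB
  have hkM : k + 2 < M := by
    have : ((k + 3 : ℕ) : ℝ) ≤ M := by push_cast; exact hk3
    have := Nat.cast_le.mp this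
    omega
  let Ω := {x : Fin (k + 2) → Fin (r + 2) → ZMod M // (∑ i, x i) 0 = 0}
  have : Nonempty Ω := ⟨⟨fun _ => 0, by simp⟩⟩
  have h1 := h N ((le_max_left _ _).trans hNN) M hM Ω (Fin (k + 2)) (by simpa using ht)
    (fun j x => psi j x.1) (fun i j hij => ap_pairOK hMp hkM i j hij)
  have e1 : av (fun ω : Ω => (∑ n ∈ Ico N (2 * N), ∏ i, nu q M w (Rt t N) n (psi i ω.1)) / (N : ℝ)) =
      (∑ n ∈ Ico N (2 * N), av (fun ω : Ω => ∏ i, nu q M w (Rt t N) n (psi i ω.1))) / N := by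
    have : (fun ω : Ω => (∑ n ∈ Ico N (2 * N), ∏ i, nu q M w (Rt t N) n (psi i ω.1)) / (N : ℝ)) =
        fun ω => (∑ n ∈ Ico N (2 * N), ∏ i, nu q M w (Rt t N) n (psi i ω.1)) * (1 / (N : ℝ)) := by
      funext ω; ring
    rw [this, av_mul_const, av_sum, mul_one_div]
  rw [e1] at h1
  have h3 := (abs_le.mp h1).2
  have h4 : ∑ n ∈ Ico N (2 * N), av (fun ω : Ω => ∏ i, nu q M w (Rt t N) n (psi i ω.1)) ≤ 2 * N := by
    have : (∑ n ∈ Ico N (2 * N), av (fun ω : Ω => ∏ i, nu q M w (Rt t N) n (psi i ω.1))) / N ≤ 2 := by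
      linarith
    rwa [div_le_iff₀ hNr] at this
  have e2 : ∀ n, ap0 k q M w (Rt t N) n =
      (1 / (M : ℝ)) * av (fun ω : Ω => ∏ i, nu q M w (Rt t N) n (psi i ω.1)) := fun n =>
    ap_av (fun x => ∏ i, nu q M w (Rt t N) n (psi i x))
  simp only [e2]
  rw [← Finset.mul_sum]
  have hM0 : (0 : ℝ) < M := by exact_mod_cast hMp.pos
  calc (1 / (M : ℝ)) * ∑ n ∈ Ico N (2 * N), av (fun ω : Ω => ∏ i, nu q M w (Rt t N) n (psi i ω.1))
      ≤ (1 / (M : ℝ)) * (2 * N) := mul_le_mul_of_nonneg_left h4 (by positivity)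
    _ ≤ θ * N := by
        rw [div_le_iff₀ hθ] at hθM
        rw [one_div_mul_eq_div, div_le_iff₀ hM0]
        nlinarith

end Pool.CH
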