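import Pool.Agent.Lib.MP_c77da8_nt.CH.As1
import Pool.Agent.Lib.MP_c77da8_nt.CH.As2
import Pool.Agent.Lib.MP_c77da8_nt.CH.As3

/-!
# CH-As4: a positive proportion of good `n`

`t = tk k`, `δ = del r t`, `a_n = av fw`, `0 ≤ a_n ≤ b_n = av nu`, `∑ a_n ≥ δ N`, `∑ b_n^2 ≤ 2N`. Let
`B = {n : ¬ LF η or ap0 > c}`: `#B ≤ θ N + (θ c/c) N = 2 θ N` (`lf_most` with `θ`, `ap0_sum` with `θ c`, Markov; `ap0 ≥ 0`).
`∑_{n ∈ B} a_n ≤ (#B)^(1/2) (∑ b_n^2)^(1/2) ≤ 2 θ^(1/2) N ≤ (δ/4) N` if `θ = δ^2/64` (Cauchy-Schwarz). Let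
`C = {n ∉ B : a_n < δ/2}`: `∑_C a_n ≤ (δ/2) N`. So the good `n` (not in `B` or `C`) have `∑ a_n ≥ (δ/4) N`, and by Cauchy-Schwarz
`(δ/4)^2 N^2 ≤ |good| · ∑ b_n^2 ≤ |good| · 2 N`: `|good| ≥ (δ^2/32) N`. `w` = maximum of all `w0` (and `≥ 1`), `N0` = maximum; also
`R + 2 ≤ N ≤ n` by `Rt_facts`, so that `fw_le` holds.
-/

set_option autoImplicit false

namespace Pool.CH

open Finset Pool.CG

variable [Sg]

/-- the counting argument: `0 ≤ a ≤ b` on a set with `N` elements -/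
private theorem As4_count (s : Finset ℕ) (N : ℝ) (hN : 0 < N) (a b : ℕ → ℝ)
    (hs : (s.card : ℝ) ≤ N) (ha : ∀ n ∈ s, 0 ≤ a n) (hab : ∀ n ∈ s, a n ≤ b n) (δ : ℝ) (hδ : 0 < δ)
    (hsum : δ * N ≤ ∑ n ∈ s, a n) (hb : ∑ n ∈ s, b n ^ 2 ≤ 2 * N) (B : Finset ℕ) (hB : B ⊆ s)
    (hBc : (B.card : ℝ) ≤ δ ^ 2 / 32 * N) :
    δ ^ 2 / 32 * N ≤ (((s \ B).filter fun n => δ / 2 ≤ a n).card : ℝ) := by
  classical
  have cs : ∀ t : Finset ℕ, t ⊆ s → (∑ n ∈ t, a n) ^ 2 ≤ t.card * (2 * N) := by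
    intro t ht
    have h1 : (∑ n ∈ t, a n) ^ 2 ≤ t.card * ∑ n ∈ t, a n ^ 2 := sq_sum_le_card_mul_sum_sq
    have h2 : ∑ n ∈ t, a n ^ 2 ≤ ∑ n ∈ s, b n ^ 2 :=
      (sum_le_sum fun n hn => pow_le_pow_left₀ (ha n (ht hn)) (hab n (ht hn)) 2).trans
        (sum_le_sum_of_subset_of_nonneg ht fun n _ _ => sq_nonneg _)
    exact h1.trans (mul_le_mul_of_nonneg_left (h2.trans hb) (Nat.cast_nonneg _))
  -- the sum over `B`
  have hSB : ∑ n ∈ B, a n ≤ δ / 4 * N := by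
    have h1 := cs B hB
    have h2 : (∑ n ∈ B, a n) ^ 2 ≤ (δ / 4 * N) ^ 2 := by
      refine h1.trans ?_
      calc (B.card : ℝ) * (2 * N) ≤ δ ^ 2 / 32 * N * (2 * N) := by gcongr
        _ = (δ / 4 * N) ^ 2 := by ring
    exact (abs_le_of_sq_le_sq' h2 (by positivity)).2
  set Cs := (s \ B).filter fun n => ¬ δ / 2 ≤ a n with hCs
  set Gs := (s \ B).filter fun n => δ / 2 ≤ a n with hGs
  have hsplit : ∑ n ∈ s, a n = ∑ n ∈ Gs, a n + ∑ n ∈ Cs, a n + ∑ n ∈ B, a n := by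
    rw [hGs, hCs, sum_filter_add_sum_filter_not, sum_sdiff hB]
  have hC : ∑ n ∈ Cs, a n ≤ δ / 2 * N := by
    calc ∑ n ∈ Cs, a n ≤ ∑ n ∈ Cs, δ / 2 := by
          refine sum_le_sum fun n hn => ?_
          rw [hCs, mem_filter] at hn
          linarith [not_le.mp hn.2]
      _ = Cs.card * (δ / 2) := by rw [sum_const, nsmul_eq_mul]
      _ ≤ N * (δ / 2) := by
          refine mul_le_mul_of_nonneg_right ?_ (by positivity)
          refine le_trans ?_ hs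
          have : Cs ⊆ s := (filter_subset _ _).trans sdiff_subset
          exact_mod_cast card_le_card this
      _ = δ / 2 * N := by ring
  have hG : δ / 4 * N ≤ ∑ n ∈ Gs, a n := by linarith
  have hGc := cs Gs ((filter_subset _ _).trans sdiff_subset)
  have h1 : (δ / 4 * N) ^ 2 ≤ Gs.card * (2 * N) :=
    (pow_le_pow_left₀ (by positivity) hG 2).trans hGc
  have h2 : δ ^ 2 / 32 * N * (2 * N) ≤ Gs.card * (2 * N) := by
    calc δ ^ 2 / 32 * N * (2 * N) = (δ / 4 * N) ^ 2 := by ring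
      _ ≤ _ := h1
  exact le_of_mul_le_mul_right h2 (by positivity)

open Classical in
theorem good {r : ℕ} (k : ℕ) (κ : ℝ) (hκ : 0 < κ) (hκ2 : ((Sg.s : ℝ) + 1) * κ < 1 / 100)
    (hr : (9 : ℝ) ^ tk k + tk k + 1 ≤ κ * (r + 1)) (q : Fin (r + 1) → ℕ)
    (hq : ∀ l, (q l).Prime) (hinj : Function.Injective q) (η c : ℝ) (hη : 0 < η) (hc : 0 < c) :
    ∃ w0 : ℕ, ∀ w ≥ w0, ∃ N0 : ℕ, ∀ N ≥ N0, ∀ (M : ℕ) [NeZero M], M.Prime → Real.log N ^ κ ≤ M →
      (M : ℝ) ≤ 3 * Real.log N ^ κ →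
      (del r (tk k)) ^ 2 / 32 * N ≤ (((Ico N (2 * N)).filter fun n =>
        LF η (fun (j : Fin (k + 2)) (x : Fin (k + 2) → (Fin (r + 2) → ZMod M)) =>
          nu q M w (Rt (tk k) N) n (psi j x)) ∧
        del r (tk k) / 2 ≤ av (fun z => fw q M w (Rt (tk k) N) n z) ∧
        ap0 k q M w (Rt (tk k) N) n ≤ c ∧
        ∀ z, 0 ≤ fw q M w (Rt (tk k) N) n z ∧
          fw q M w (Rt (tk k) N) n z ≤ nu q M w (Rt (tk k) N) n z).card : ℝ) := by
  have htk2 : k + 2 ≤ tk k ∧ 2 ≤ tk k ∧ 1 ≤ tk k := by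
    have h1 : 1 ≤ 2 ^ (k + 2) := Nat.one_le_two_pow
    have h2 : (k + 2) * 1 ≤ (k + 2) * 2 ^ (k + 2) := Nat.mul_le_mul_left _ h1
    unfold tk
    omega
  obtain ⟨hkt, ht2, ht1⟩ := htk2
  obtain ⟨δ, hδdef⟩ : ∃ δ : ℝ, δ = del r (tk k) := ⟨_, rfl⟩
  have hδ : 0 < δ := by
    rw [hδdef]
    have : (0 : ℝ) < tk k := by exact_mod_cast ht1
    unfold del
    positivity
  set θ : ℝ := δ ^ 2 / 64 with hθ
  have hθ0 : 0 < θ := by positivity
  obtain ⟨w1, h1⟩ := lf_most k κ hκ hr q hq hinj η θ hη hθ0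
  obtain ⟨w2, h2⟩ := fw_sum (tk k) ht1 κ hκ hκ2 q hq hinj
  obtain ⟨w3, h3⟩ := nu_second (tk k) ht2 κ hκ hr q hq hinj
  obtain ⟨w4, h4⟩ := ap0_sum k (tk k) hkt κ hκ hr q hq hinj (θ * c) (by positivity)
  refine ⟨max (max w1 w2) (max w3 w4), fun w hw => ?_⟩
  obtain ⟨N1, h1⟩ := h1 w (((le_max_left _ _).trans (le_max_left _ _)).trans hw)
  obtain ⟨N2, h2⟩ := h2 w (((le_max_right _ _).trans (le_max_left _ _)).trans hw)
  obtain ⟨N3, h3⟩ := h3 w (((le_max_left _ _).trans (le_max_right _ _)).trans hw)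
  obtain ⟨N4, h4⟩ := h4 w (((le_max_right _ _).trans (le_max_right _ _)).trans hw)
  obtain ⟨N5, h5⟩ := Rt_facts (tk k) ht1
  refine ⟨max (max (max N1 N2) (max N3 N4)) (max N5 1), fun N hN M _ hM hM1 hM2 => ?_⟩
  have hN1 : N1 ≤ N := le_trans ((le_max_left _ _).trans ((le_max_left _ _).trans (le_max_left _ _))) hN
  have hN2 : N2 ≤ N := le_trans ((le_max_right _ _).trans ((le_max_left _ _).trans (le_max_left _ _))) hN
  have hN3 : N3 ≤ N := le_trans ((le_max_left _ _).trans ((le_max_right _ _).trans (le_max_left _ _))) hN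
  have hN4 : N4 ≤ N := le_trans ((le_max_right _ _).trans ((le_max_right _ _).trans (le_max_left _ _))) hN
  have hN5 : N5 ≤ N := le_trans ((le_max_left _ _).trans (le_max_right _ _)) hN
  have hN6 : 1 ≤ N := le_trans ((le_max_right _ _).trans (le_max_right _ _)) hN
  have hNr : (0 : ℝ) < N := by exact_mod_cast hN6
  have h1 := h1 N hN1 M hM hM1
  have h2 := h2 N hN2 M hM2
  have h3 := h3 N hN3 M hM1
  have h4 := h4 N hN4 M hM hM1
  obtain ⟨hR3, -, -, hR4, -, -⟩ := h5 N hN5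
  obtain ⟨R, hRdef⟩ : ∃ R : ℕ, R = Rt (tk k) N := ⟨_, rfl⟩
  rw [← hRdef] at hR3 hR4 h1 h2 h3 h4 ⊢
  rw [← hδdef] at h2 ⊢
  have hfn : ∀ n z, 0 ≤ fw q M w R n z := fun n z => fw_nonneg q M w R n z (by omega)
  have hnn : ∀ n z, 0 ≤ nu q M w R n z := fun n z => nu_nonneg q M w R n z (by omega)
  have hfl : ∀ n ∈ Ico N (2 * N), ∀ z, fw q M w R n z ≤ nu q M w R n z := by
    intro n hn z
    rw [mem_Ico] at hn
    exact fw_le q hq M w R n (by omega) (by omega) z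
  have hap0 : ∀ n, 0 ≤ ap0 k q M w R n := by
    intro n
    unfold ap0
    refine av_nonneg fun x => ?_
    split_ifs
    · exact prod_nonneg fun j _ => hnn _ _
    · exact le_rfl
  -- the bad sets
  set B1 := (Ico N (2 * N)).filter fun n => ¬ LF η (fun (j : Fin (k + 2))
        (x : Fin (k + 2) → (Fin (r + 2) → ZMod M)) => nu q M w R n (psi j x)) with hB1
  set B2 := (Ico N (2 * N)).filter fun n => c < ap0 k q M w R n with hB2
  have hB2c : (B2.card : ℝ) ≤ θ * N := by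
    have : (B2.card : ℝ) * c ≤ θ * c * N := by
      calc (B2.card : ℝ) * c = ∑ n ∈ B2, c := by rw [sum_const, nsmul_eq_mul]
        _ ≤ ∑ n ∈ B2, ap0 k q M w R n := by
            refine sum_le_sum fun n hn => ?_
            rw [hB2, mem_filter] at hn
            exact hn.2.le
        _ ≤ ∑ n ∈ Ico N (2 * N), ap0 k q M w R n :=
            sum_le_sum_of_subset_of_nonneg (filter_subset _ _) fun n _ _ => hap0 n
        _ ≤ θ * c * N := h4
    have h' : (B2.card : ℝ) * c ≤ θ * N * c := by linarith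
    exact le_of_mul_le_mul_right h' hc
  have hBc : ((B1 ∪ B2).card : ℝ) ≤ δ ^ 2 / 32 * N := by
    have h' : ((B1 ∪ B2).card : ℝ) ≤ B1.card + B2.card := by exact_mod_cast card_union_le _ _
    calc ((B1 ∪ B2).card : ℝ) ≤ B1.card + B2.card := h'
      _ ≤ θ * N + θ * N := add_le_add h1 hB2c
      _ = δ ^ 2 / 32 * N := by rw [hθ]; ring
  have key := As4_count (Ico N (2 * N)) N hNr (fun n => av (fun z => fw q M w R n z))
    (fun n => av (fun z => nu q M w R n z)) (by rw [Nat.card_Ico]; apply le_of_eq; congr 1; omega)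
    (fun n _ => av_nonneg fun z => hfn n z) (fun n hn => av_mono fun z => hfl n hn z) δ hδ h2 h3
    (B1 ∪ B2) (union_subset (filter_subset _ _) (filter_subset _ _)) hBc
  refine key.trans ?_
  norm_cast
  refine card_le_card fun n hn => ?_
  rw [mem_filter, mem_sdiff, mem_union, not_or] at hn
  obtain ⟨⟨hn0, hn1, hn2⟩, hn3⟩ := hn
  rw [mem_filter]
  rw [hB1, mem_filter, not_and, not_not] at hn1
  rw [hB2, mem_filter, not_and, not_lt] at hn2
  exact ⟨hn0, hn1 hn0, hn3, hn2 hn0, fun z => ⟨hfn n z, hfl n hn0 z⟩⟩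

end Pool.CH
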