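import Pool.Agent.Lib.MP_c77da8_nt.CH.As3
import Pool.Agent.Lib.MP_c77da8_nt.CG.Dense

/-!
# CH-As7: second moment with respect to the ratio

`F(x, v) = ∏_j ν(psi j x + v)`, `A(x) = av_v F(x, v)`. With `u0 v = (−v, v, 0, …)`, `psi j (u0 v) = v` for all `j`, so
`av_x A(x)^2 = av_v av_x F(x, v) A(x) = av_x F(x, 0) A(x) = av_(x,v) F(x, 0) F(x, v)`, an average over `(Fin (k+2) → G) × G` of a product of
`2 (k+2)` forms, to which `lf_gen` applies.
-/

set_option autoImplicit false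

namespace Pool.CH

open Finset Pool.CG

theorem psi_single_gen {k : ℕ} {G : Type} [AddCommGroup G] (j l : Fin (k + 2)) (u : G) :
    psi j (Pi.single l u : Fin (k + 2) → G) = (((l : ℕ) : ℤ) - ((j : ℕ) : ℤ)) • u := by
  unfold psi
  rw [Finset.sum_eq_single l]
  · rw [Pi.single_eq_same]
  · intro b _ hb
    rw [Pi.single_eq_of_ne hb, smul_zero]
  · intro h; exact absurd (mem_univ _) h

/-- the vector which moves all forms by `v` -/
def u0 {k : ℕ} {G : Type} [AddCommGroup G] (v : G) : Fin (k + 2) → G := Pi.single 1 v + Pi.single 0 (-v)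

theorem psi_u0 {k : ℕ} {G : Type} [AddCommGroup G] (j : Fin (k + 2)) (v : G) : psi j (u0 v) = v := by
  unfold u0
  rw [psi_add_gen, psi_single_gen, psi_single_gen]
  have h1 : (((1 : Fin (k + 2)) : ℕ) : ℤ) = 1 := by simp
  have h0 : (((0 : Fin (k + 2)) : ℕ) : ℤ) = 0 := by simp
  rw [h1, h0, sub_smul, sub_smul, one_smul, zero_smul, smul_neg]
  abel

theorem sum_u0 {k : ℕ} {G : Type} [AddCommGroup G] (v : G) : ∑ i, (u0 v : Fin (k + 2) → G) i = 0 := by
  unfold u0
  simp only [Pi.add_apply]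
  rw [Finset.sum_add_distrib, Finset.sum_pi_single', Finset.sum_pi_single']
  simp

/-- the forms -/
def zz {k : ℕ} {G : Type} [AddCommGroup G] (a : Fin (k + 2) × Bool) (ω : (Fin (k + 2) → G) × G) : G :=
  psi a.1 ω.1 + if a.2 then ω.2 else 0

theorem ju_rat {k r M : ℕ} (hM : M.Prime) (hk : k + 2 < M) (a a' : Fin (k + 2) × Bool) (hne : a ≠ a') :
    JU (zz (G := Fin (r + 2) → ZMod M) a) (zz a') := by
  obtain ⟨j, β⟩ := a
  obtain ⟨j', β'⟩ := a'
  intro e
  cases β <;> cases β'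
  · -- both without `v`
    have hj : j ≠ j' := fun h => hne (by rw [h])
    haveI := Fact.mk hM
    have hu : (((j' : ℕ) : ℤ) - ((j : ℕ) : ℤ) : ℤ) ≠ 0 := by
      intro h
      apply hj
      apply Fin.ext
      omega
    have hu' : ((((j' : ℕ) : ℤ) - ((j : ℕ) : ℤ) : ℤ) : ZMod M) ≠ 0 := by
      rw [Ne, ZMod.intCast_zmod_eq_zero_iff_dvd]
      intro hd
      have h1 := j.2
      have h2 := j'.2
      exact hu (Int.eq_zero_of_abs_lt_dvd hd (by rw [abs_lt]; constructor <;> omega))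
    refine ⟨(Equiv.addRight (Pi.single j' (fun i => ((((j' : ℕ) : ℤ) - ((j : ℕ) : ℤ) : ℤ) : ZMod M)⁻¹ * e i))).prodCongr
      (Equiv.refl _), fun ω => ⟨?_, ?_⟩⟩
    · simp only [zz, Equiv.prodCongr_apply, Prod.map_fst, Equiv.coe_addRight, Bool.false_eq_true, if_false, add_zero]
      rw [psi_add_gen, psi_single_gen]
      congr 1
      funext i
      simp only [Pi.smul_apply, zsmul_eq_mul]
      rw [← mul_assoc, mul_inv_cancel₀ hu', one_mul]
    · simp only [zz, Equiv.prodCongr_apply, Prod.map_fst, Equiv.coe_addRight, Bool.false_eq_true, if_false, add_zero]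
      rw [psi_add_gen, psi_single_gen, sub_self, zero_smul, add_zero]
  · -- only the second with `v`
    refine ⟨(Equiv.addRight (u0 e)).prodCongr (Equiv.addRight (-e)), fun ω => ⟨?_, ?_⟩⟩
    · simp only [zz, Equiv.prodCongr_apply, Prod.map_fst, Equiv.coe_addRight, Bool.false_eq_true, if_false, add_zero]
      rw [psi_add_gen, psi_u0]
    · simp only [zz, Equiv.prodCongr_apply, Prod.map_fst, Prod.map_snd, Equiv.coe_addRight, if_true]
      rw [psi_add_gen, psi_u0]
      abel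
  · -- only the first with `v`
    refine ⟨(Equiv.refl _).prodCongr (Equiv.addRight e), fun ω => ⟨?_, ?_⟩⟩
    · simp only [zz, Equiv.prodCongr_apply, Prod.map_fst, Prod.map_snd, Equiv.coe_addRight, Equiv.refl_apply, if_true]
      abel
    · simp only [zz, Equiv.prodCongr_apply, Prod.map_fst, Equiv.refl_apply, Bool.false_eq_true, if_false, add_zero]
  · -- both with `v`
    have hj : j ≠ j' := fun h => hne (by rw [h])
    haveI := Fact.mk hM
    have hu : (((j' : ℕ) : ℤ) - ((j : ℕ) : ℤ) : ℤ) ≠ 0 := by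
      intro h
      apply hj
      apply Fin.ext
      omega
    have hu' : ((((j' : ℕ) : ℤ) - ((j : ℕ) : ℤ) : ℤ) : ZMod M) ≠ 0 := by
      rw [Ne, ZMod.intCast_zmod_eq_zero_iff_dvd]
      intro hd
      have h1 := j.2
      have h2 := j'.2
      exact hu (Int.eq_zero_of_abs_lt_dvd hd (by rw [abs_lt]; constructor <;> omega))
    refine ⟨(Equiv.addRight (Pi.single j' (fun i => ((((j' : ℕ) : ℤ) - ((j : ℕ) : ℤ) : ℤ) : ZMod M)⁻¹ * e i))).prodCongr
      (Equiv.refl _), fun ω => ⟨?_, ?_⟩⟩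
    · simp only [zz, Equiv.prodCongr_apply, Prod.map_fst, Prod.map_snd, Equiv.coe_addRight, Equiv.refl_apply, if_true]
      rw [psi_add_gen, psi_single_gen]
      have : (((j' : ℕ) : ℤ) - ((j : ℕ) : ℤ)) • (fun i => ((((j' : ℕ) : ℤ) - ((j : ℕ) : ℤ) : ℤ) : ZMod M)⁻¹ * e i) = e := by
        funext i
        simp only [Pi.smul_apply, zsmul_eq_mul]
        rw [← mul_assoc, mul_inv_cancel₀ hu', one_mul]
      rw [this]
      abel
    · simp only [zz, Equiv.prodCongr_apply, Prod.map_fst, Prod.map_snd, Equiv.coe_addRight, Equiv.refl_apply, if_true]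
      rw [psi_add_gen, psi_single_gen, sub_self, zero_smul, add_zero]

/-- the square of the average over `v` -/
theorem av_sq_u0 {k : ℕ} {G : Type} [AddCommGroup G] [Fintype G] (f : G → ℝ) :
    av (fun x : Fin (k + 2) → G => (av fun v : G => ∏ j, f (psi j x + v)) ^ 2) =
      av (fun ω : (Fin (k + 2) → G) × G => ∏ a : Fin (k + 2) × Bool, f (zz a ω)) := by
  classical
  have : Nonempty G := ⟨0⟩
  set F : (Fin (k + 2) → G) → G → ℝ := fun x v => ∏ j, f (psi j x + v) with hF
  set A : (Fin (k + 2) → G) → ℝ := fun x => av fun v : G => F x v with hA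
  have hshift : ∀ (x : Fin (k + 2) → G) (v v' : G), F (x + u0 v) v' = F x (v + v') := by
    intro x v v'
    rw [hF]
    refine Finset.prod_congr rfl fun j _ => ?_
    rw [psi_add_gen, psi_u0, add_assoc]
  have hAs : ∀ (x : Fin (k + 2) → G) (v : G), A (x + u0 v) = A x := by
    intro x v
    rw [hA]
    simp only [hshift]
    exact av_equiv (Equiv.addLeft v) (fun v' => F x v')
  have h1 : ∀ x, A x ^ 2 = av fun v : G => F x v * A x := by
    intro x
    rw [av_mul_const, sq]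
  have h2 : av (fun x : Fin (k + 2) → G => A x ^ 2) = av (fun x : Fin (k + 2) → G => F x 0 * A x) := by
    have e1 : av (fun x : Fin (k + 2) → G => A x ^ 2) = av (fun x : Fin (k + 2) → G => av fun v : G => F x v * A x) :=
      av_congr h1
    rw [e1, av_comm]
    have e2 : ∀ v : G, av (fun x : Fin (k + 2) → G => F x v * A x) = av (fun x : Fin (k + 2) → G => F x 0 * A x) := by
      intro v
      rw [← av_equiv (Equiv.addRight (u0 (-v))) (fun x : Fin (k + 2) → G => F x v * A x)]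
      refine av_congr fun x => ?_
      rw [Equiv.coe_addRight, hshift, hAs, neg_add_cancel]
    exact (av_congr e2).trans (av_const _)
  have h3 : ∀ (x : Fin (k + 2) → G) (v : G), ∏ a : Fin (k + 2) × Bool, f (zz a (x, v)) = F x v * F x 0 := by
    intro x v
    rw [Fintype.prod_prod_type]
    simp only [Fintype.prod_bool, zz, if_true, Bool.false_eq_true, if_false]
    rw [hF]
    simp only
    rw [Finset.prod_mul_distrib]
  show av (fun x : Fin (k + 2) → G => A x ^ 2) = _
  rw [h2, av_prod]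
  refine av_congr fun x => ?_
  have h4 : ∀ v : G, ∏ a : Fin (k + 2) × Bool, f (zz a (x, v)) = F x v * F x 0 := h3 x
  simp only [h4]
  rw [av_mul_const, mul_comm]

variable [Sg]

theorem rat_second {r : ℕ} (k t : ℕ) (ht : 2 * (k + 2) ≤ t) (κ : ℝ) (hκ : 0 < κ)
    (hr : (9 : ℝ) ^ t + t + 1 ≤ κ * (r + 1)) (q : Fin (r + 1) → ℕ)
    (hq : ∀ l, (q l).Prime) (hinj : Function.Injective q) :
    ∃ w0 : ℕ, ∀ w ≥ w0, ∃ N0 : ℕ, ∀ N ≥ N0, ∀ (M : ℕ) [NeZero M], M.Prime → k + 2 < M → Real.log N ^ κ ≤ M →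
      ∑ n ∈ Ico N (2 * N), av (fun x : Fin (k + 2) → (Fin (r + 2) → ZMod M) =>
        (av fun v : Fin (r + 2) → ZMod M => ∏ j, nu q M w (Rt t N) n (psi j x + v)) ^ 2) ≤ 2 * N := by
  obtain ⟨w0, h⟩ := lf_gen t (by omega) κ hκ hr q hq hinj 1 one_pos
  refine ⟨w0, fun w hw => ?_⟩
  obtain ⟨N1, h⟩ := h w hw
  refine ⟨max N1 1, fun N hN M _ hMp hkM hM => ?_⟩
  have hN1 : 1 ≤ N := (le_max_right _ _).trans hN
  have hNr : (0 : ℝ) < N := by exact_mod_cast hN1
  have h1 := h N ((le_max_left _ _).trans hN) M hM ((Fin (k + 2) → (Fin (r + 2) → ZMod M)) × (Fin (r + 2) → ZMod M))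
    (Fin (k + 2) × Bool) (by simp only [Fintype.card_prod, Fintype.card_fin, Fintype.card_bool]; omega)
    (fun a ω => zz a ω) (fun i j hij => (ju_rat hMp hkM i j hij).pairOK)
  have e1 : av (fun ω : (Fin (k + 2) → (Fin (r + 2) → ZMod M)) × (Fin (r + 2) → ZMod M) =>
      (∑ n ∈ Ico N (2 * N), ∏ i, nu q M w (Rt t N) n (zz i ω)) / (N : ℝ)) =
      (∑ n ∈ Ico N (2 * N), av (fun x : Fin (k + 2) → (Fin (r + 2) → ZMod M) =>
        (av fun v : Fin (r + 2) → ZMod M => ∏ j, nu q M w (Rt t N) n (psi j x + v)) ^ 2)) / N := by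
    have : (fun ω : (Fin (k + 2) → (Fin (r + 2) → ZMod M)) × (Fin (r + 2) → ZMod M) =>
      (∑ n ∈ Ico N (2 * N), ∏ i, nu q M w (Rt t N) n (zz i ω)) / (N : ℝ)) = fun ω =>
      (∑ n ∈ Ico N (2 * N), ∏ i, nu q M w (Rt t N) n (zz i ω)) * (1 / (N : ℝ)) := by
      funext ω; ring
    rw [this, av_mul_const, av_sum, mul_one_div]
    congr 1
    refine Finset.sum_congr rfl fun n _ => ?_
    exact (av_sq_u0 (fun z => nu q M w (Rt t N) n z)).symm
  rw [e1] at h1
  have h2 := (abs_le.mp h1).2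
  rw [sub_le_iff_le_add, div_le_iff₀ hNr] at h2
  linarith

end Pool.CH
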