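import Pool.Agent.Lib.MP_c77da8_nt.CH.As7

/-!
# CH-As8: extraction of the geometric progression, the ratio as a function of `∑ x_i`

As `As5`, with the exponents of the ratio in closed form: `rc M s l = |k_l s_0 + s_(l+1)|`, `s_i` the least absolute residue of
`(∑ x) i`.
-/

set_option autoImplicit false

namespace Pool.CH

open Finset Pool.CG

variable [Sg]

/-- the exponent of `q_l` in the multiplier `m(z)` -/
private def exA {r : ℕ} (M : ℕ) (z : Fin (r + 2) → ZMod M) (l : Fin (r + 1)) : ℕ :=
  kk M l * (z 0).val + (z l.succ).val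

private theorem psi_subA {k : ℕ} {G : Type} [AddCommGroup G] (j j' : Fin k) (x : Fin k → G) :
    psi j x - psi j' x = (((j' : ℕ) : ℤ) - ((j : ℕ) : ℤ)) • ∑ i, x i := by
  unfold psi
  rw [← Finset.sum_sub_distrib, Finset.smul_sum]
  refine Finset.sum_congr rfl fun i _ => ?_
  rw [← sub_smul]
  congr 1
  ring

private theorem progA {M : ℕ} [NeZero M] (K : ℕ) (v : ℕ → ZMod M) (s : ZMod M) (hv : ∀ j ≤ K, 2 * (v j).val < M)
    (hs : ∀ j < K, v j - v (j + 1) = s) (hK : 1 ≤ K) :
    ∀ j ≤ K, ((v j).val : ℤ) = (v 0).val + j * (((v 1).val : ℤ) - (v 0).val) := by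
  intro j hj
  induction j with
  | zero => simp
  | succ j ih =>
    have hj' : j < K := by omega
    have ih := ih (by omega)
    have hdvd : (M : ℤ) ∣ ((v (j + 1)).val : ℤ) - (v j).val - (((v 1).val : ℤ) - (v 0).val) := by
      rw [← ZMod.intCast_zmod_eq_zero_iff_dvd]
      push_cast
      simp only [ZMod.natCast_val, ZMod.cast_id', id]
      have e1 := hs j hj'
      have e2 := hs 0 (by omega)
      simp only [zero_add] at e2
      linear_combination e2 - e1
    have hlt : |((v (j + 1)).val : ℤ) - (v j).val - (((v 1).val : ℤ) - (v 0).val)| < (M : ℤ) := by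
      have b1 := hv (j + 1) (by omega)
      have b2 := hv j (by omega)
      have b3 := hv 1 (by omega)
      have b4 := hv 0 (by omega)
      rw [abs_lt]
      constructor <;> omega
    have h0 := Int.eq_zero_of_abs_lt_dvd hdvd hlt
    push_cast
    linarith

/-- the exponent of `q_l` in the ratio, for the difference `s` -/
def rc (M : ℕ) {r : ℕ} (s : Fin (r + 2) → ZMod M) (l : Fin (r + 1)) : ℕ :=
  ((kk M l : ℤ) * (s 0).valMinAbs + (s l.succ).valMinAbs).natAbs

private theorem ext_det8 {k r : ℕ} (q : Fin (r + 1) → ℕ) (M w R n : ℕ) [NeZero M]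
    (x : Fin (k + 2) → Fin (r + 2) → ZMod M) (hs : (∑ i, x i) 0 ≠ 0)
    (hf : ∀ j, fw q M w R n (psi j x) ≠ 0) :
    ∃ b c : Fin (r + 1) → ℕ, (∀ l, b l ≤ M ^ (Sg.s + 1) ∧ b l ≤ kk M l * M) ∧ (∀ l, 1 ≤ c l ∧ kk M l ≤ 2 * c l ∧ c l ≤ kk M l * M) ∧
      (∀ l, c l = rc M (∑ i, x i) l) ∧
      ∀ j < k + 2, (Wp w * n * (∏ l, q l ^ b l) * (∏ l, q l ^ c l) ^ j - 1).Prime := by
  have hM : 0 < M := Nat.pos_of_ne_zero (NeZero.ne M)
  have h1 : ∀ j : Fin (k + 2), (La q M w n (psi j x)).Prime ∧ ∀ i, 2 * (psi j x i).val < M := by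
    intro j
    have := hf j
    unfold fw at this
    by_contra hne
    rw [if_neg hne] at this
    exact this rfl
  -- the points as a function on `ℕ`
  set z : ℕ → Fin (r + 2) → ZMod M := fun j => if h : j < k + 2 then psi ⟨j, h⟩ x else 0 with hz
  have hzj : ∀ (j : ℕ) (h : j < k + 2), z j = psi ⟨j, h⟩ x := fun j h => by rw [hz]; simp [h]
  have hzb : ∀ i, ∀ j ≤ k + 1, 2 * (z j i).val < M := by
    intro i j hj
    rw [hzj j (by omega)]
    exact (h1 _).2 i
  have hzs : ∀ i, ∀ j < k + 1, z j i - z (j + 1) i = (∑ i, x i) i := by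
    intro i j hj
    rw [hzj j (by omega), hzj (j + 1) (by omega)]
    have := congrFun (psi_subA (⟨j, by omega⟩ : Fin (k + 2)) ⟨j + 1, by omega⟩ x) i
    simp only [Pi.sub_apply] at this
    rw [this]
    push_cast
    simp
  -- integer progression
  have hp : ∀ i, ∀ j ≤ k + 1, ((z j i).val : ℤ) = (z 0 i).val + j * (((z 1 i).val : ℤ) - (z 0 i).val) := fun i =>
    progA (k + 1) (fun j => z j i) _ (hzb i) (hzs i) (by omega)
  -- difference of the exponents
  set D : Fin (r + 2) → ℤ := fun i => ((z 1 i).val : ℤ) - (z 0 i).val with hD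
  have hDb : ∀ i, 2 * |D i| < (M : ℤ) := by
    intro i
    have a1 := hzb i 1 (by omega)
    have a0 := hzb i 0 (by omega)
    have : |D i| = |((z 1 i).val : ℤ) - (z 0 i).val| := rfl
    rw [this]
    rcases abs_cases (((z 1 i).val : ℤ) - (z 0 i).val) with h | h <;> omega
  have hDv : ∀ i, ((∑ i, x i) i).valMinAbs = -D i := by
    intro i
    rw [ZMod.valMinAbs_spec]
    have hb := hDb i
    have e := hzs i 0 (by omega)
    refine ⟨?_, ?_, ?_⟩
    · rw [← e]
      show z 0 i - z (0 + 1) i = ((-D i : ℤ) : ZMod M)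
      rw [hD]
      push_cast
      simp only [ZMod.natCast_val, ZMod.cast_id', id]
      ring
    · have := neg_abs_le (-D i)
      rw [abs_neg] at this
      linarith
    · have := le_abs_self (-D i)
      rw [abs_neg] at this
      linarith
  have hrc : ∀ l : Fin (r + 1), rc M (∑ i, x i) l = ((kk M l : ℤ) * D 0 + D l.succ).natAbs := by
    intro l
    unfold rc
    rw [hDv 0, hDv l.succ, ← Int.natAbs_neg]
    congr 1
    ring
  have hD0 : D 0 ≠ 0 := by
    intro h0
    apply hs
    have e := hzs 0 0 (by omega)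
    rw [← e]
    have : (z 1 0).val = (z 0 0).val := by
      have : ((z 1 0).val : ℤ) - (z 0 0).val = 0 := h0
      omega
    have := ZMod.val_injective M this
    rw [zero_add, this, sub_self]
  have hE : ∀ l : Fin (r + 1), ∀ j ≤ k + 1, ((exA M (z j) l : ℕ) : ℤ) = exA M (z 0) l + j * (kk M l * D 0 + D l.succ) := by
    intro l j hj
    unfold exA
    push_cast
    rw [hp 0 j hj, hp l.succ j hj]
    simp only [hD]
    ring
  have hexle : ∀ (l : Fin (r + 1)) (z : Fin (r + 2) → ZMod M), exA M z l ≤ M ^ (Sg.s + 1) ∧ exA M z l ≤ kk M l * M := by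
    intro l z
    unfold exA
    have a0 := ZMod.val_lt (z 0)
    have a1 := ZMod.val_lt (z l.succ)
    have a3 : M ≤ kk M l := kk_ge M l
    have a2 : kk M l * (z 0).val ≤ kk M l * (M - 1) := Nat.mul_le_mul_left _ (by omega)
    have e : kk M l * (M - 1) + kk M l = kk M l * M := by
      obtain ⟨m, hm⟩ : ∃ m, M = m + 1 := ⟨M - 1, by omega⟩
      generalize kk M l = K
      rw [hm]
      simp only [Nat.add_sub_cancel]
      ring
    have e2 : kk M l * M ≤ M ^ (Sg.s + 1) := by
      rw [pow_succ]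
      exact Nat.mul_le_mul_right _ (kk_le M l)
    constructor <;> omega
  have hLa : ∀ (j : ℕ) (h : j < k + 2), (Wp w * n * (∏ l, q l ^ exA M (z j) l) - 1).Prime := by
    intro j h
    have := (h1 ⟨j, h⟩).1
    rw [← hzj j h] at this
    have e : La q M w n (z j) = Wp w * n * (∏ l, q l ^ exA M (z j) l) - 1 := by
      unfold La mz exA
      congr 1
      ring
    rwa [e] at this
  have hkk : ∀ l : Fin (r + 1), (M : ℤ) ≤ kk M l := fun l => by exact_mod_cast kk_ge M l
  have hsize : ∀ l : Fin (r + 1), |(kk M l : ℤ) * D 0 + D l.succ| ≤ (kk M l : ℤ) * M := by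
    intro l
    have a := hDb 0
    have b := hDb l.succ
    have c := hkk l
    have hM' : (0 : ℤ) < M := by exact_mod_cast hM
    calc |(kk M l : ℤ) * D 0 + D l.succ| ≤ |(kk M l : ℤ) * D 0| + |D l.succ| := abs_add_le _ _
      _ = kk M l * |D 0| + |D l.succ| := by rw [abs_mul, abs_of_nonneg (by positivity : (0 : ℤ) ≤ kk M l)]
      _ ≤ kk M l * |D 0| + kk M l := by linarith [abs_nonneg (D l.succ)]
      _ = kk M l * (|D 0| + 1) := by ring
      _ ≤ (kk M l : ℤ) * M := by
          apply mul_le_mul_of_nonneg_left _ (by positivity)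
          have := abs_nonneg (D 0)
          have h2 : 1 ≤ |D 0| := Int.one_le_abs hD0
          omega
  rcases lt_or_gt_of_ne hD0 with hneg | hpos
  · -- reversed progression
    have hc2 : ∀ l : Fin (r + 1), (kk M l : ℤ) ≤ 2 * (-((kk M l : ℤ) * D 0 + D l.succ)) := by
      intro l
      have b := hDb l.succ
      have b' := abs_le.mp (le_refl |D l.succ|)
      have c := hkk l
      have c' : (0 : ℤ) ≤ kk M l := by positivity
      have h3 : (kk M l : ℤ) * D 0 ≤ kk M l * (-1) := mul_le_mul_of_nonneg_left (by omega) c'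
      linarith [b'.2]
    have hc : ∀ l : Fin (r + 1), 1 ≤ -((kk M l : ℤ) * D 0 + D l.succ) := by
      intro l
      have := hc2 l
      have c := hkk l
      have hM' : (0 : ℤ) < M := by exact_mod_cast hM
      omega
    refine ⟨fun l => exA M (z (k + 1)) l, fun l => (-((kk M l : ℤ) * D 0 + D l.succ)).toNat, fun l => hexle l _, ?_, ?_, ?_⟩
    · intro l
      have h := hc l
      have h' := hsize l
      have h'' := neg_le_abs ((kk M l : ℤ) * D 0 + D l.succ)
      refine ⟨?_, ?_, ?_⟩
      · zify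
        rw [Int.toNat_of_nonneg (by omega)]
        exact h
      · zify
        rw [Int.toNat_of_nonneg (by omega)]
        exact hc2 l
      · zify
        rw [Int.toNat_of_nonneg (by omega)]
        linarith
    · intro l
      rw [hrc l]
      have h := hc l
      zify
      rw [Int.toNat_of_nonneg (by omega), abs_of_neg (by omega)]
    · intro j hj
      have := hLa (k + 1 - j) (by omega)
      have e : ∀ l, exA M (z (k + 1 - j)) l = exA M (z (k + 1)) l + (-((kk M l : ℤ) * D 0 + D l.succ)).toNat * j := by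
        intro l
        zify
        rw [Int.toNat_of_nonneg (by linarith [hc l]), hE l _ (by omega), hE l _ le_rfl, Nat.cast_sub (by omega)]
        push_cast
        ring
      have e2 : (∏ l, q l ^ exA M (z (k + 1 - j)) l) = (∏ l, q l ^ exA M (z (k + 1)) l) *
          (∏ l, q l ^ (-((kk M l : ℤ) * D 0 + D l.succ)).toNat) ^ j := by
        rw [← Finset.prod_pow, ← Finset.prod_mul_distrib]
        refine Finset.prod_congr rfl fun l _ => ?_
        rw [e l, pow_add, pow_mul]
      rw [e2, ← mul_assoc] at this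
      exact this
  · have hc2 : ∀ l : Fin (r + 1), (kk M l : ℤ) ≤ 2 * ((kk M l : ℤ) * D 0 + D l.succ) := by
      intro l
      have b := hDb l.succ
      have b' := abs_le.mp (le_refl |D l.succ|)
      have c := hkk l
      have c' : (0 : ℤ) ≤ kk M l := by positivity
      have h3 : (kk M l : ℤ) * 1 ≤ kk M l * D 0 := mul_le_mul_of_nonneg_left (by omega) c'
      linarith [b'.1]
    have hc : ∀ l : Fin (r + 1), 1 ≤ (kk M l : ℤ) * D 0 + D l.succ := by
      intro l
      have := hc2 l
      have c := hkk l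
      have hM' : (0 : ℤ) < M := by exact_mod_cast hM
      omega
    refine ⟨fun l => exA M (z 0) l, fun l => ((kk M l : ℤ) * D 0 + D l.succ).toNat, fun l => hexle l _, ?_, ?_, ?_⟩
    · intro l
      have h := hc l
      have h' := hsize l
      have h'' := le_abs_self ((kk M l : ℤ) * D 0 + D l.succ)
      refine ⟨?_, ?_, ?_⟩
      · zify
        rw [Int.toNat_of_nonneg (by omega)]
        exact h
      · zify
        rw [Int.toNat_of_nonneg (by omega)]
        exact hc2 l
      · zify
        rw [Int.toNat_of_nonneg (by omega)]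
        linarith
    · intro l
      rw [hrc l]
      have h := hc l
      zify
      rw [Int.toNat_of_nonneg (by omega), abs_of_pos (by omega)]
    · intro j hj
      have := hLa j hj
      have e : ∀ l, exA M (z j) l = exA M (z 0) l + ((kk M l : ℤ) * D 0 + D l.succ).toNat * j := by
        intro l
        zify
        rw [Int.toNat_of_nonneg (by linarith [hc l]), hE l j (by omega)]
        ring
      have e2 : (∏ l, q l ^ exA M (z j) l) = (∏ l, q l ^ exA M (z 0) l) *
          (∏ l, q l ^ ((kk M l : ℤ) * D 0 + D l.succ).toNat) ^ j := by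
        rw [← Finset.prod_pow, ← Finset.prod_mul_distrib]
        refine Finset.prod_congr rfl fun l _ => ?_
        rw [e l, pow_add, pow_mul]
      rw [e2, ← mul_assoc] at this
      exact this

theorem extract_ratio {k r M : ℕ} [NeZero M] (q : Fin (r + 1) → ℕ) (w R n : ℕ)
    (x : Fin (k + 2) → (Fin (r + 2) → ZMod M)) (v : Fin (r + 2) → ZMod M)
    (hx : ∀ j : Fin (k + 2), fw q M w R n (psi j x + v) ≠ 0) (h0 : (∑ i, x i) 0 ≠ 0) :
    (∀ l, 1 ≤ rc M (∑ i, x i) l ∧ kk M l ≤ 2 * rc M (∑ i, x i) l ∧ rc M (∑ i, x i) l ≤ kk M l * M) ∧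
    ∃ b : Fin (r + 1) → ℕ, (∀ l, b l ≤ M ^ (Sg.s + 1) ∧ b l ≤ kk M l * M) ∧
      ∀ j < k + 2, (Wp w * n * (∏ l, q l ^ b l) * (∏ l, q l ^ rc M (∑ i, x i) l) ^ j - 1).Prime := by
  have hsum : ∑ i, (x + (u0 v : Fin (k + 2) → Fin (r + 2) → ZMod M)) i = ∑ i, x i := by
    simp only [Pi.add_apply]
    rw [Finset.sum_add_distrib, sum_u0, add_zero]
  obtain ⟨b, c, hb, hc, hcr, h⟩ := ext_det8 q M w R n (x + u0 v) (by rw [hsum]; exact h0) (fun j => by
    rw [psi_add_gen, psi_u0]; exact hx j)
  have hc' : c = rc M (∑ i, x i) := by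
    funext l
    rw [hcr l, hsum]
  rw [hc'] at hc h
  exact ⟨hc, b, hb, h⟩

end Pool.CH
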