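import Pool.Agent.Lib.MP_c77da8_nt.CH.As4
import Pool.Agent.Lib.MP_c77da8_nt.CH.As8
import Pool.Agent.Lib.MP_c77da8_nt.CG.Many
import Pool.Agent.Lib.MP_c77da8_nt.CG.RS

/-!
# CH-As9: the final theorem, one ratio for a positive proportion of `n`

As `As6`; for the good `n` (the set `S`, at least `(δ²/32) N'` of them) `h_n(x) = [(∑ x) 0 ≠ 0] av_v ∏_j fw(psi j x + v)` has average `≥ c/2`
(`av ∏_j fw(psi j x) ≥ c`, `ap0 ≤ c/2`), and `∑_n av h_n² ≤ 2 N'` (`rat_second`). `exists_many` gives one `x` with `h_n(x) > 0` for at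
least `c₁² N'/2` of the `n ∈ S`, `c₁ = (c/2) δ²/32`; `extract_ratio` gives the progressions, all with the ratio `∏ q_l^(rc M (∑ x) l)`.
-/

set_option autoImplicit false

namespace Pool.CH

open Finset Filter Pool.CG

private lemma As9_tendsto (κ : ℝ) (hκ : 0 < κ) :
    Tendsto (fun N : ℕ => Real.log (N : ℝ) ^ κ) atTop atTop :=
  (tendsto_rpow_atTop hκ).comp (Real.tendsto_log_atTop.comp (tendsto_natCast_atTop_atTop (R := ℝ)))

private lemma As9_M (κ : ℝ) (hκ : 0 < κ) (L : ℕ) : ∃ N1 : ℕ, ∀ N ≥ N1, ∃ M : ℕ, M.Prime ∧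
    Real.log (N : ℝ) ^ κ ≤ M ∧ (M : ℝ) ≤ 3 * Real.log (N : ℝ) ^ κ ∧ L < M := by
  obtain ⟨N1, hN1⟩ := eventually_atTop.1 ((As9_tendsto κ hκ).eventually_ge_atTop ((L : ℝ) + 2))
  refine ⟨N1, fun N hN => ?_⟩
  have h1 := hN1 N hN
  set u : ℝ := Real.log (N : ℝ) ^ κ with hu
  have hL0 : (0 : ℝ) ≤ L := Nat.cast_nonneg L
  have hn0 : ⌈u⌉₊ ≠ 0 := by
    have : 0 < ⌈u⌉₊ := Nat.ceil_pos.2 (by linarith)
    omega
  obtain ⟨p, hp, hp1, hp2⟩ := Nat.exists_prime_lt_and_le_two_mul ⌈u⌉₊ hn0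
  have h2 : u ≤ ⌈u⌉₊ := Nat.le_ceil u
  have h3 : (⌈u⌉₊ : ℝ) < u + 1 := Nat.ceil_lt_add_one (by linarith)
  have h4 : (⌈u⌉₊ : ℝ) < p := by exact_mod_cast hp1
  have h5 : (p : ℝ) ≤ 2 * ⌈u⌉₊ := by exact_mod_cast hp2
  refine ⟨p, hp, by linarith, by linarith, ?_⟩
  have : (L : ℝ) < p := by linarith
  exact_mod_cast this

/-- multiplication by `i` prime to `M` -/
private lemma As9_bij {r M : ℕ} (hM : M.Prime) (i : ℕ) (h1 : 1 ≤ i) (h2 : i < M) :
    Function.Bijective (fun x : Fin (r + 2) → ZMod M => i • x) := by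
  haveI := Fact.mk hM
  have hne : (i : ZMod M) ≠ 0 := by
    intro h
    rw [ZMod.natCast_eq_zero_iff] at h
    exact absurd (Nat.le_of_dvd (by omega) h) (by omega)
  constructor
  · intro x y hxy
    funext a
    have h := congrFun hxy a
    simp only [Pi.smul_apply, nsmul_eq_mul] at h
    exact mul_left_cancel₀ hne h
  · intro y
    refine ⟨fun a => (i : ZMod M)⁻¹ * y a, ?_⟩
    funext a
    simp only [Pi.smul_apply, nsmul_eq_mul]
    rw [← mul_assoc, mul_inv_cancel₀ hne, one_mul]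

variable [Sg] in
open Classical in
/-- the weight of the progressions with the difference of `x` -/
private noncomputable def As9_h {r k M : ℕ} [NeZero M] (q : Fin (r + 1) → ℕ) (w R n : ℕ)
    (x : Fin (k + 2) → (Fin (r + 2) → ZMod M)) : ℝ :=
  if (∑ i, x i) 0 = 0 then 0 else av (fun v : Fin (r + 2) → ZMod M => ∏ j, fw q M w R n (psi j x + v))

variable [Sg] in
/-- from the weighted count of the progressions to the average of `h` -/
private lemma As9_av {r k M : ℕ} [NeZero M] (q : Fin (r + 1) → ℕ) (w R n : ℕ) (c : ℝ)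
    (hf : ∀ z : Fin (r + 2) → ZMod M, 0 ≤ fw q M w R n z ∧ fw q M w R n z ≤ nu q M w R n z)
    (h0 : ap0 k q M w R n ≤ c / 2)
    (h : c ≤ av (fun x : Fin (k + 2) → (Fin (r + 2) → ZMod M) => ∏ j, fw q M w R n (psi j x))) :
    c / 2 ≤ av (fun x : Fin (k + 2) → (Fin (r + 2) → ZMod M) => As9_h q w R n x) := by
  classical
  have e1 : av (fun x : Fin (k + 2) → (Fin (r + 2) → ZMod M) => As9_h q w R n x) =
      av (fun x : Fin (k + 2) → (Fin (r + 2) → ZMod M) => if (∑ i, x i) 0 = 0 then 0 else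
        ∏ j, fw q M w R n (psi j x)) := by
    have e2 : ∀ x : Fin (k + 2) → (Fin (r + 2) → ZMod M), As9_h q w R n x =
        av (fun v : Fin (r + 2) → ZMod M => if (∑ i, x i) 0 = 0 then 0 else ∏ j, fw q M w R n (psi j x + v)) := by
      intro x
      unfold As9_h
      split_ifs
      · exact (av_zero).symm
      · rfl
    rw [av_congr e2, av_comm]
    have e3 : ∀ v : Fin (r + 2) → ZMod M,
        av (fun x : Fin (k + 2) → (Fin (r + 2) → ZMod M) => if (∑ i, x i) 0 = 0 then 0 else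
          ∏ j, fw q M w R n (psi j x + v)) =
        av (fun x : Fin (k + 2) → (Fin (r + 2) → ZMod M) => if (∑ i, x i) 0 = 0 then 0 else
          ∏ j, fw q M w R n (psi j x)) := by
      intro v
      rw [← av_equiv (Equiv.addRight (u0 v)) (fun x : Fin (k + 2) → (Fin (r + 2) → ZMod M) =>
        if (∑ i, x i) 0 = 0 then 0 else ∏ j, fw q M w R n (psi j x))]
      refine av_congr fun x => ?_
      have hs : ∑ i, (Equiv.addRight (u0 v) x) i = ∑ i, x i := by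
        rw [Equiv.coe_addRight]
        simp only [Pi.add_apply]
        rw [Finset.sum_add_distrib, sum_u0, add_zero]
      rw [hs]
      congr 1
      refine Finset.prod_congr rfl fun j _ => ?_
      rw [Equiv.coe_addRight, psi_add_gen, psi_u0]
    exact (av_congr e3).trans (av_const _)
  rw [e1]
  have h3 : av (fun x : Fin (k + 2) → (Fin (r + 2) → ZMod M) => ∏ j, fw q M w R n (psi j x)) ≤
      av (fun x : Fin (k + 2) → (Fin (r + 2) → ZMod M) => (if (∑ i, x i) 0 = 0 then 0 else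
        ∏ j, fw q M w R n (psi j x)) + if (∑ i, x i) 0 = 0 then ∏ j, nu q M w R n (psi j x) else 0) := by
    refine av_mono fun x => ?_
    split_ifs
    · rw [zero_add]
      exact Finset.prod_le_prod (fun j _ => (hf _).1) (fun j _ => (hf _).2)
    · rw [add_zero]
  rw [av_add] at h3
  have h4 : av (fun x : Fin (k + 2) → (Fin (r + 2) → ZMod M) =>
      if (∑ i, x i) 0 = 0 then ∏ j, nu q M w R n (psi j x) else 0) = ap0 k q M w R n := rfl
  rw [h4] at h3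
  linarith

variable [Sg] in
private lemma As9_sq {r k M : ℕ} [NeZero M] (q : Fin (r + 1) → ℕ) (w R n : ℕ)
    (hf : ∀ z : Fin (r + 2) → ZMod M, 0 ≤ fw q M w R n z ∧ fw q M w R n z ≤ nu q M w R n z) :
    av (fun x : Fin (k + 2) → (Fin (r + 2) → ZMod M) => As9_h q w R n x ^ 2) ≤
      av (fun x : Fin (k + 2) → (Fin (r + 2) → ZMod M) =>
        (av fun v : Fin (r + 2) → ZMod M => ∏ j, nu q M w R n (psi j x + v)) ^ 2) := by
  refine av_mono fun x => ?_
  have h1 : 0 ≤ av (fun v : Fin (r + 2) → ZMod M => ∏ j, fw q M w R n (psi j x + v)) :=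
    av_nonneg fun v => Finset.prod_nonneg fun j _ => (hf _).1
  have h2 : av (fun v : Fin (r + 2) → ZMod M => ∏ j, fw q M w R n (psi j x + v)) ≤
      av (fun v : Fin (r + 2) → ZMod M => ∏ j, nu q M w R n (psi j x + v)) :=
    av_mono fun v => Finset.prod_le_prod (fun j _ => (hf _).1) (fun j _ => (hf _).2)
  unfold As9_h
  split_ifs
  · rw [zero_pow (by norm_num)]
    positivity
  · exact pow_le_pow_left₀ h1 h2 2

variable [Sg] in
private lemma As9_pos {r k M : ℕ} [NeZero M] (q : Fin (r + 1) → ℕ) (w R n : ℕ)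
    (x : Fin (k + 2) → (Fin (r + 2) → ZMod M)) (h : 0 < As9_h q w R n x) :
    (∑ i, x i) 0 ≠ 0 ∧ ∃ v : Fin (r + 2) → ZMod M, ∀ j : Fin (k + 2), fw q M w R n (psi j x + v) ≠ 0 := by
  classical
  have h0 : (∑ i, x i) 0 ≠ 0 := by
    intro h0
    unfold As9_h at h
    rw [if_pos h0] at h
    exact lt_irrefl _ h
  refine ⟨h0, ?_⟩
  by_contra hne
  push Not at hne
  unfold As9_h at h
  rw [if_neg h0] at h
  have : ∀ v : Fin (r + 2) → ZMod M, ∏ j, fw q M w R n (psi j x + v) = 0 := by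
    intro v
    obtain ⟨j, hj⟩ := hne v
    exact Finset.prod_eq_zero (mem_univ j) hj
  simp only [this] at h
  rw [av_zero] at h
  exact lt_irrefl _ h

/-- powers of `M` against powers of `M^s / 2` -/
private lemma As9_pow (s : ℕ) (ε : ℝ) (hε : 0 < ε) (hs : 3 ≤ (s : ℝ) * ε) (M e : ℕ) (hM : (2 : ℝ) ^ ε ≤ M) (hM1 : 1 ≤ M)
    (he : M ^ s ≤ 2 * e) : (M : ℝ) ^ 2 ≤ (e : ℝ) ^ ε := by
  have hM0 : (1 : ℝ) ≤ M := by exact_mod_cast hM1
  have h1 : ((M : ℝ) ^ s) / 2 ≤ e := by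
    have : ((M : ℝ) ^ s) ≤ 2 * e := by exact_mod_cast he
    linarith
  have h2 : (((M : ℝ) ^ s) / 2) ^ ε ≤ (e : ℝ) ^ ε := Real.rpow_le_rpow (by positivity) h1 hε.le
  refine le_trans ?_ h2
  rw [Real.div_rpow (by positivity) (by norm_num), ← Real.rpow_natCast (M : ℝ) s, ← Real.rpow_mul (by linarith)]
  have h3 : (M : ℝ) ^ (3 : ℝ) ≤ (M : ℝ) ^ ((s : ℝ) * ε) := Real.rpow_le_rpow_of_exponent_le hM0 hs
  have h4 : (0 : ℝ) < (2 : ℝ) ^ ε := by positivity
  rw [le_div_iff₀ h4]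
  calc (M : ℝ) ^ 2 * 2 ^ ε ≤ (M : ℝ) ^ 2 * M := mul_le_mul_of_nonneg_left hM (by positivity)
    _ = (M : ℝ) ^ (3 : ℝ) := by
        rw [show (3 : ℝ) = ((3 : ℕ) : ℝ) by norm_num, Real.rpow_natCast]
        ring
    _ ≤ _ := h3

open Classical in
/-- **Long geometric progressions in `P + 1`**, the ratio is a power of the first prime times a small factor -/
theorem one_ratio (k : ℕ) (ε : ℝ) (hε : 0 < ε) : ∃ r₀ : ℕ, ∀ r ≥ r₀, ∀ q : Fin (r + 1) → ℕ,
    (∀ i, (q i).Prime) → Function.Injective q → ∃ c : ℝ, 0 < c ∧ ∃ N₀ : ℕ, ∀ N ≥ N₀, ∃ e : Fin (r + 1) → ℕ,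
      (∀ i, 1 ≤ e i ∧ (e i : ℝ) ≤ Real.log N ^ ε) ∧ (∀ i, i ≠ 0 → (e i : ℝ) ≤ (e 0 : ℝ) ^ ε) ∧
      c * N ≤ (((Icc 1 N).filter fun n => ∃ b : Fin (r + 1) → ℕ,
        (∀ i, (b i : ℝ) ≤ Real.log N ^ ε) ∧ (∀ i, i ≠ 0 → (b i : ℝ) ≤ (e 0 : ℝ) ^ ε) ∧
        ∀ j < k, (n * (∏ i, q i ^ b i) * (∏ i, q i ^ e i) ^ j - 1).Prime).card : ℝ) := by
  obtain ⟨s, hsdef⟩ : ∃ s : ℕ, s = ⌈3 / ε⌉₊ + 1 := ⟨_, rfl⟩
  have hs1 : 1 ≤ s := by omega
  have hsε : 3 ≤ (s : ℝ) * ε := by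
    have h1 : 3 / ε ≤ ⌈3 / ε⌉₊ := Nat.le_ceil _
    have h2 : ((⌈3 / ε⌉₊ : ℕ) : ℝ) ≤ s := by
      rw [hsdef]
      push_cast
      linarith
    rw [div_le_iff₀ hε] at h1
    nlinarith
  letI iSg : Sg := ⟨s, hs1⟩
  have hSg : Sg.s = s := rfl
  have hsr : (0 : ℝ) < (s : ℝ) + 1 := by positivity
  obtain ⟨κ, hκdef⟩ : ∃ κ : ℝ, κ = min ε (1 / 100) / (4 * ((s : ℝ) + 1)) := ⟨_, rfl⟩
  have hmin : 0 < min ε (1 / 100) := lt_min hε (by norm_num)
  have hκ : 0 < κ := by rw [hκdef]; positivity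
  have hκs : ((s : ℝ) + 1) * κ = min ε (1 / 100) / 4 := by
    rw [hκdef]
    field_simp
  have hκ2 : ((Sg.s : ℝ) + 1) * κ < 1 / 100 := by
    rw [hSg, hκs]
    have := min_le_right ε (1 / 100 : ℝ)
    linarith
  have hκε : ((s : ℝ) + 1) * κ ≤ ε / 2 := by
    rw [hκs]
    have := min_le_left ε (1 / 100 : ℝ)
    linarith
  obtain ⟨r₀, hr₀⟩ : ∃ r : ℕ, (9 : ℝ) ^ tk k + tk k + 1 ≤ κ * (r + 1) := by
    obtain ⟨r, hr⟩ := exists_nat_ge (((9 : ℝ) ^ tk k + tk k + 1) / κ)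
    refine ⟨r, ?_⟩
    rw [div_le_iff₀ hκ] at hr
    nlinarith
  refine ⟨r₀, fun r hrr q hq hinj => ?_⟩
  have hr : (9 : ℝ) ^ tk k + tk k + 1 ≤ κ * (r + 1) := by
    have : (r₀ : ℝ) ≤ r := by exact_mod_cast hrr
    nlinarith
  have htk : 0 < tk k := by unfold tk; positivity
  have hdel : 0 < del r (tk k) := by
    have : (0 : ℝ) < tk k := by exact_mod_cast htk
    unfold del
    positivity
  obtain ⟨L, η, c, hη, hc, hRS⟩ := relative_szemeredi k (del r (tk k) / 2) (by linarith)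
  obtain ⟨w, hgood, hsecond⟩ : ∃ w : ℕ, (∃ N0 : ℕ, ∀ N ≥ N0, ∀ (M : ℕ) [NeZero M], M.Prime → Real.log N ^ κ ≤ M →
      (M : ℝ) ≤ 3 * Real.log N ^ κ →
      (del r (tk k)) ^ 2 / 32 * N ≤ (((Ico N (2 * N)).filter fun n =>
        LF η (fun (j : Fin (k + 2)) (x : Fin (k + 2) → (Fin (r + 2) → ZMod M)) =>
          nu q M w (Rt (tk k) N) n (psi j x)) ∧
        del r (tk k) / 2 ≤ av (fun z => fw q M w (Rt (tk k) N) n z) ∧
        ap0 k q M w (Rt (tk k) N) n ≤ c / 2 ∧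
        ∀ z, 0 ≤ fw q M w (Rt (tk k) N) n z ∧
          fw q M w (Rt (tk k) N) n z ≤ nu q M w (Rt (tk k) N) n z).card : ℝ)) ∧
      (∃ N0 : ℕ, ∀ N ≥ N0, ∀ (M : ℕ) [NeZero M], M.Prime → k + 2 < M → Real.log N ^ κ ≤ M →
      ∑ n ∈ Ico N (2 * N), av (fun x : Fin (k + 2) → (Fin (r + 2) → ZMod M) =>
        (av fun v : Fin (r + 2) → ZMod M => ∏ j, nu q M w (Rt (tk k) N) n (psi j x + v)) ^ 2) ≤ 2 * N) := by
    obtain ⟨w1, h1⟩ := good k κ hκ hκ2 hr q hq hinj η (c / 2) hη (by linarith)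
    obtain ⟨w2, h2⟩ := rat_second k (tk k) (by
      unfold tk
      have : k + 2 ≤ (k + 2) * 2 ^ (k + 2) := Nat.le_mul_of_pos_right _ (by positivity)
      omega) κ hκ hr q hq hinj
    exact ⟨max w1 w2, h1 _ (le_max_left _ _), h2 _ (le_max_right _ _)⟩
  obtain ⟨N0, hgood⟩ := hgood
  obtain ⟨N3, hsecond⟩ := hsecond
  obtain ⟨N1, hM1⟩ := As9_M κ hκ (L + 1 + ⌈(2 : ℝ) ^ ε⌉₊ + (k + 2))
  obtain ⟨W, hWdef⟩ : ∃ W : ℕ, W = Wp w := ⟨_, rfl⟩
  have hW : 1 ≤ W := by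
    rw [hWdef]
    unfold Wp
    exact Nat.one_le_iff_ne_zero.2 (Finset.prod_ne_zero_iff.2 fun p hp => (mem_filter.1 hp).2.ne_zero)
  have hWr : (1 : ℝ) ≤ W := by exact_mod_cast hW
  obtain ⟨N2, hN2⟩ := eventually_atTop.1 ((As9_tendsto (ε / 2) (by linarith)).eventually_ge_atTop ((3 : ℝ) ^ (s + 1)))
  obtain ⟨c1, hc1def⟩ : ∃ c1 : ℝ, c1 = c / 2 * (del r (tk k) ^ 2 / 32) := ⟨_, rfl⟩
  have hc1 : 0 < c1 := by rw [hc1def]; positivity
  refine ⟨c1 ^ 2 / 2 / (4 * W), by positivity,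
    max (max N2 3) (2 * W * (max (max N0 N3) N1 + 2)), fun N hN => ?_⟩
  have hNa : N2 ≤ N := le_trans (le_trans (le_max_left _ _) (le_max_left _ _)) hN
  have hN3 : 3 ≤ N := le_trans (le_trans (le_max_right _ _) (le_max_left _ _)) hN
  have hNb : 2 * W * (max (max N0 N3) N1 + 2) ≤ N := le_trans (le_max_right _ _) hN
  have hW2 : 0 < 2 * W := by omega
  obtain ⟨N', hN'⟩ : ∃ N' : ℕ, N' = N / (2 * W) := ⟨_, rfl⟩
  have h1 : max (max N0 N3) N1 + 2 ≤ N' := by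
    rw [hN', Nat.le_div_iff_mul_le hW2]
    calc (max (max N0 N3) N1 + 2) * (2 * W) = 2 * W * (max (max N0 N3) N1 + 2) := by ring
      _ ≤ N := hNb
  have h2 : N0 ≤ N' := by have := le_max_left (max N0 N3) N1; have := le_max_left N0 N3; omega
  have h2' : N3 ≤ N' := by have := le_max_left (max N0 N3) N1; have := le_max_right N0 N3; omega
  have h3 : N1 ≤ N' := by have := le_max_right (max N0 N3) N1; omega
  have h4 : W * (2 * N') ≤ N := by
    have := Nat.div_mul_le_self N (2 * W)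
    rw [← hN'] at this
    calc W * (2 * N') = N' * (2 * W) := by ring
      _ ≤ N := this
  have h5 : (N : ℝ) ≤ 4 * W * N' := by
    have h6 : N < 2 * W * (N' + 1) := by
      rw [hN']
      exact Nat.lt_mul_div_succ N hW2
    have h7 : (N : ℝ) < 2 * W * (N' + 1) := by exact_mod_cast h6
    have h8 : (1 : ℝ) ≤ N' := by
      have : 1 ≤ N' := by omega
      exact_mod_cast this
    nlinarith
  obtain ⟨M, hMp, hM2, hM3, hLM⟩ := hM1 N' h3
  haveI : NeZero M := ⟨hMp.ne_zero⟩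
  have hcard := hgood N' h2 M hMp hM2 hM3
  have hsec := hsecond N' h2' M hMp (by omega) hM2
  have hM2ε : (2 : ℝ) ^ ε ≤ M := by
    have h6 : (2 : ℝ) ^ ε ≤ ⌈(2 : ℝ) ^ ε⌉₊ := Nat.le_ceil _
    have h7 : ⌈(2 : ℝ) ^ ε⌉₊ ≤ M := by omega
    have h8 : ((⌈(2 : ℝ) ^ ε⌉₊ : ℕ) : ℝ) ≤ M := by exact_mod_cast h7
    linarith
  -- bound for the exponents
  have hN1r : (1 : ℝ) ≤ N' := by
    have : 1 ≤ N' := by omega
    exact_mod_cast this
  have hN'N : (N' : ℝ) ≤ N := by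
    have : N' ≤ N := by
      rw [hN']
      exact Nat.div_le_self _ _
    exact_mod_cast this
  have hlog0 : 0 ≤ Real.log (N' : ℝ) := Real.log_nonneg hN1r
  have hlogle : Real.log (N' : ℝ) ≤ Real.log (N : ℝ) := Real.log_le_log (by linarith) hN'N
  have hlog1 : 1 ≤ Real.log (N : ℝ) := by
    have h6 : (3 : ℝ) ≤ N := by exact_mod_cast hN3
    rw [Real.le_log_iff_exp_le (by linarith)]
    have := Real.exp_one_lt_d9
    linarith
  have hexp : (M : ℝ) ^ (s + 1) ≤ Real.log (N : ℝ) ^ ε := by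
    have h9 : (M : ℝ) ^ (s + 1) ≤ (3 * Real.log (N' : ℝ) ^ κ) ^ (s + 1) :=
      pow_le_pow_left₀ (Nat.cast_nonneg _) hM3 _
    have h10 : (3 * Real.log (N' : ℝ) ^ κ) ^ (s + 1) = 3 ^ (s + 1) * Real.log (N' : ℝ) ^ (((s : ℝ) + 1) * κ) := by
      rw [mul_pow, ← Real.rpow_natCast (Real.log (N' : ℝ) ^ κ) (s + 1), ← Real.rpow_mul hlog0]
      push_cast
      ring_nf
    have h11 : Real.log (N' : ℝ) ^ (((s : ℝ) + 1) * κ) ≤ Real.log (N : ℝ) ^ (((s : ℝ) + 1) * κ) :=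
      Real.rpow_le_rpow hlog0 hlogle (by positivity)
    have h12 : Real.log (N : ℝ) ^ (((s : ℝ) + 1) * κ) ≤ Real.log (N : ℝ) ^ (ε / 2) :=
      Real.rpow_le_rpow_of_exponent_le hlog1 hκε
    have h13 : (3 : ℝ) ^ (s + 1) ≤ Real.log (N : ℝ) ^ (ε / 2) := hN2 N hNa
    have h14 : Real.log (N : ℝ) ^ ε = Real.log (N : ℝ) ^ (ε / 2) * Real.log (N : ℝ) ^ (ε / 2) := by
      rw [← Real.rpow_add (by linarith)]
      congr 1
      ring
    rw [h14]
    calc (M : ℝ) ^ (s + 1) ≤ 3 ^ (s + 1) * Real.log (N' : ℝ) ^ (((s : ℝ) + 1) * κ) := by rw [← h10]; exact h9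
      _ ≤ Real.log (N : ℝ) ^ (ε / 2) * Real.log (N : ℝ) ^ (ε / 2) := by
          apply mul_le_mul h13 (h11.trans h12) (by positivity) (by positivity)
  -- the good `n`
  obtain ⟨S, hSdef⟩ : ∃ S : Finset ℕ, S = (Ico N' (2 * N')).filter fun n =>
        LF η (fun (j : Fin (k + 2)) (x : Fin (k + 2) → (Fin (r + 2) → ZMod M)) =>
          nu q M w (Rt (tk k) N') n (psi j x)) ∧
        del r (tk k) / 2 ≤ av (fun z => fw q M w (Rt (tk k) N') n z) ∧
        ap0 k q M w (Rt (tk k) N') n ≤ c / 2 ∧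
        ∀ z, 0 ≤ fw q M w (Rt (tk k) N') n z ∧
          fw q M w (Rt (tk k) N') n z ≤ nu q M w (Rt (tk k) N') n z := ⟨_, rfl⟩
  rw [← hSdef] at hcard
  have hSI : S ⊆ Ico N' (2 * N') := by rw [hSdef]; exact Finset.filter_subset _ _
  have hSav : ∀ n ∈ S, c / 2 ≤ av (fun x : Fin (k + 2) → (Fin (r + 2) → ZMod M) => As9_h q w (Rt (tk k) N') n x) := by
    intro n hn
    rw [hSdef, mem_filter] at hn
    obtain ⟨_, hLF, hav, hap, hfw⟩ := hn
    have hRS' := hRS (Fin (r + 2) → ZMod M) (fun i hi1 hi2 => As9_bij hMp i hi1 (by omega))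
      (fun z => nu q M w (Rt (tk k) N') n z) (fun z => fw q M w (Rt (tk k) N') n z)
      (fun z => le_trans (hfw z).1 (hfw z).2) hLF hfw hav
    exact As9_av q w (Rt (tk k) N') n c hfw hap hRS'
  have hSsq : ∀ n ∈ S, av (fun x : Fin (k + 2) → (Fin (r + 2) → ZMod M) => As9_h q w (Rt (tk k) N') n x ^ 2) ≤
      av (fun x : Fin (k + 2) → (Fin (r + 2) → ZMod M) =>
        (av fun v : Fin (r + 2) → ZMod M => ∏ j, nu q M w (Rt (tk k) N') n (psi j x + v)) ^ 2) := by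
    intro n hn
    rw [hSdef, mem_filter] at hn
    exact As9_sq q w (Rt (tk k) N') n hn.2.2.2.2
  have hm1 : c1 * N' ≤ ∑ n ∈ S, av (fun x : Fin (k + 2) → (Fin (r + 2) → ZMod M) => As9_h q w (Rt (tk k) N') n x) := by
    calc c1 * N' = (c / 2) * (del r (tk k) ^ 2 / 32 * N') := by rw [hc1def]; ring
      _ ≤ (c / 2) * S.card := mul_le_mul_of_nonneg_left hcard (by positivity)
      _ = ∑ _n ∈ S, c / 2 := by rw [Finset.sum_const, nsmul_eq_mul, mul_comm]
      _ ≤ _ := Finset.sum_le_sum hSav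
  have hm2 : ∑ n ∈ S, av (fun x : Fin (k + 2) → (Fin (r + 2) → ZMod M) => As9_h q w (Rt (tk k) N') n x ^ 2) ≤ 2 * N' := by
    refine (Finset.sum_le_sum hSsq).trans (le_trans ?_ hsec)
    exact Finset.sum_le_sum_of_subset_of_nonneg hSI fun n _ _ => av_nonneg fun x => sq_nonneg _
  obtain ⟨x, hx⟩ := exists_many S (fun n (x : Fin (k + 2) → (Fin (r + 2) → ZMod M)) => As9_h q w (Rt (tk k) N') n x)
    c1 N' hc1 hm1 hm2
  -- the bounds for the exponents of the ratio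
  have hne : (S.filter fun n => 0 < As9_h q w (Rt (tk k) N') n x).Nonempty := by
    rw [← Finset.card_pos]
    have h6 : (0 : ℝ) < c1 ^ 2 / 2 * N' := by positivity
    have h7 := lt_of_lt_of_le h6 hx
    exact_mod_cast h7
  obtain ⟨n0, hn0⟩ := hne
  obtain ⟨hd0, v0, hv0⟩ := As9_pos q w (Rt (tk k) N') n0 x (mem_filter.1 hn0).2
  obtain ⟨hrc, -⟩ := extract_ratio q w (Rt (tk k) N') n0 x v0 hv0 hd0
  have he0 : M ^ s ≤ 2 * rc M (∑ i, x i) (0 : Fin (r + 1)) := by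
    have := (hrc 0).2.1
    have h6 : kk M (0 : Fin (r + 1)) = M ^ s := by
      unfold kk
      rw [if_pos rfl, hSg]
    rw [h6] at this
    exact this
  have hMe := As9_pow s ε hε hsε M (rc M (∑ i, x i) (0 : Fin (r + 1))) hM2ε hMp.one_le he0
  have hkk : ∀ i : Fin (r + 1), i ≠ 0 → kk M i * M = M ^ 2 := by
    intro i hi
    unfold kk
    rw [if_neg hi]
    ring
  refine ⟨fun l => rc M (∑ i, x i) l, fun i => ⟨(hrc i).1, ?_⟩, fun i hi => ?_, ?_⟩
  · refine le_trans ?_ hexp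
    have : rc M (∑ i, x i) i ≤ M ^ (s + 1) := (hrc i).2.2.trans (by
      rw [pow_succ]
      exact Nat.mul_le_mul_right _ (kk_le M i))
    exact_mod_cast this
  · refine le_trans ?_ hMe
    have := (hrc i).2.2
    rw [hkk i hi] at this
    exact_mod_cast this
  -- the map `n ↦ W n`
  · refine le_trans (le_trans ?_ hx) ?_
    · rw [div_mul_eq_mul_div, div_le_iff₀ (by positivity)]
      calc c1 ^ 2 / 2 * (N : ℝ) ≤ c1 ^ 2 / 2 * (4 * W * N') := by gcongr
        _ = _ := by ring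
    · norm_cast
      apply Finset.card_le_card_of_injOn (fun n => W * n)
      · intro n hn
        simp only [Finset.coe_filter, Set.mem_setOf_eq] at hn
        obtain ⟨hn1, hn2⟩ := hn
        have hn3 := mem_Ico.1 (hSI hn1)
        simp only [Finset.coe_filter, Set.mem_setOf_eq, mem_Icc]
        obtain ⟨hd, v, hv⟩ := As9_pos q w (Rt (tk k) N') n x hn2
        obtain ⟨-, b, hb, hpr⟩ := extract_ratio q w (Rt (tk k) N') n x v hv hd
        refine ⟨⟨?_, ?_⟩, b, fun i => ?_, fun i hi => ?_, fun j hj => ?_⟩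
        · have : 1 ≤ n := by omega
          exact Nat.mul_pos (by omega) (by omega)
        · calc W * n ≤ W * (2 * N') := Nat.mul_le_mul_left _ (by omega)
            _ ≤ N := h4
        · refine le_trans ?_ hexp
          have := (hb i).1
          rw [hSg] at this
          exact_mod_cast this
        · refine le_trans ?_ hMe
          have := (hb i).2
          rw [hkk i hi] at this
          exact_mod_cast this
        · have := hpr j (by omega)
          rw [hWdef]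
          exact this
      · intro a _ b _ hab
        exact Nat.eq_of_mul_eq_mul_left (by omega : 0 < W) hab

end Pool.CH
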